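import Pool.Agent.K7.H49.ML.Stm

set_option autoImplicit false

/-!
# Moments of all orders for Montgomery's large values conjecture on generic linear images:
definitions and statements of the jobs
-/

open Finset MeasureTheory Module

namespace Pool.Agent.K7.H49.ML

/-- JOB SEPK: sums over separated points of `ℝ^r` (as `StSep`) -/
def StSepK : Prop :=
  ∀ (ι : Type) (S : Finset ι) (r : ℕ) (z : ι → Fin r → ℝ) (Λ σ : ℝ) (K : ℕ), 0 < Λ → 0 < σ → 1 ≤ K →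
    (∀ p ∈ S, ∀ q ∈ S, p ≠ q → ∃ l, σ ≤ |z p l - z q l|) → (∀ p ∈ S, ∀ l, |z p l| ≤ K * σ) →
      ∑ p ∈ S, ∏ l, g Λ (z p l) ≤ (2 * (1 + 2 / (Λ * σ) * (1 + Real.log K))) ^ r

/-- JOB MINOR: a nonzero minor of order the rank -/
def StMinor : Prop :=
  ∀ (d m : ℕ) (w : Fin m → Fin d → ℚ) (r : ℕ), r = finrank ℚ (Submodule.span ℚ (Set.range w)) →
    ∃ (Cc : Fin r → Fin m) (R : Fin r → Fin d), Function.Injective Cc ∧ Function.Injective R ∧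
      (Matrix.of fun l c => w (Cc c) (R l)).det ≠ 0

/-- JOB ADJ: Cramer's rule with bounds, for integral matrices -/
def StAdj : Prop :=
  ∀ (r : ℕ) (W : Matrix (Fin r) (Fin r) ℤ) (B : ℕ), 1 ≤ B → W.det ≠ 0 → (∀ l c, |W l c| ≤ B) →
    ∀ (y : Fin r → ℝ) (σ : ℝ), (∀ l, |∑ c, (W l c : ℝ) * y c| < σ) →
      ∀ c, |y c| < r.factorial * (B : ℝ) ^ r * σ

/-- the frequency of `x i` in the product of the kernels along the cycle -/
noncomputable def freq {d m : ℕ} (a : Fin (m + 1) → Fin d → ℤ) (n : Fin (m + 1) → ℕ) (i : Fin d) : ℝ :=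
  ∑ j, (a j i : ℝ) * (Real.log (n (j + 1)) - Real.log (n j))

/-- the differences of consecutive vectors -/
def dif {d m : ℕ} (a : Fin (m + 1) → Fin d → ℤ) : Fin m → Fin d → ℚ :=
  fun j i => (a j.succ i : ℚ) - (a j.castSucc i : ℚ)

/-- their rank -/
noncomputable def rk {d m : ℕ} (a : Fin (m + 1) → Fin d → ℤ) : ℕ :=
  finrank ℚ (Submodule.span ℚ (Set.range (dif a)))

/-- the constant -/
noncomputable def Qc (m N B : ℕ) (Λ : ℝ) : ℝ :=
  2 * (1 + 2 * ((m + 1).factorial * (B : ℝ) ^ (m + 1) * N) / Λ *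
    (1 + Real.log ((m + 1) * (m + 1).factorial * (B : ℝ) ^ (m + 2) * (N : ℝ) ^ 2)))

/-- JOB NSUM (assume `StSepK`, `StMinor`, `StAdj`): the sum over the integers -/
def StNSum : Prop :=
  ∀ (N B : ℕ), 1 ≤ N → 1 ≤ B → ∀ I : Finset ℕ, (∀ n ∈ I, 1 ≤ n ∧ n ≤ N) →
    ∀ (d m : ℕ) (a : Fin (m + 1) → Fin d → ℤ), (∀ j j' i, |a j i - a j' i| ≤ B) → ∀ Λ : ℝ, 0 < Λ →
      ∑ n : Fin (m + 1) → I, ∏ i, g Λ (freq a (fun j => (n j : ℕ)) i) ≤
        (I.card : ℝ) ^ (m + 1 - rk a) * Qc m N B Λ ^ (rk a)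

/-- JOB COUNT: cycles weighted by their rank (compare `Pool.Agent.Y959.Gen.path_sum`) -/
def StCount : Prop :=
  ∀ (d B : ℕ) (A : Finset (Fin d → ℤ)), (∀ a ∈ A, ∀ b ∈ A, ∀ i, |a i - b i| ≤ B) →
    ∀ (R : ℕ), 1 ≤ R → ∀ m : ℕ,
      ∑ a : Fin (m + 1) → A, R ^ (m + 1 - rk (fun j => (a j : Fin d → ℤ))) ≤
        A.card * R * (A.card + R * (2 * B + 1) ^ m) ^ m

end Pool.Agent.K7.H49.ML
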