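import Pool.Agent.K7.H49.ML.Stm2

set_option autoImplicit false

/-!
# The integral version: definitions and statements of the jobs
-/

open Finset MeasureTheory Module

namespace Pool.Agent.K7.H49.ML

/-- the normalised exponential sum over `L < x ≤ 2L` -/
noncomputable def h (L : ℕ) (θ : ℝ) : ℝ :=
  ‖∑ x ∈ Finset.Ioc L (2 * L), Complex.exp (((θ * (x : ℝ) : ℝ) : ℂ) * Complex.I)‖ / L

/-- JOB KER: nearest multiple of `2π`, geometric sum, Jordan's inequality -/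
def StKer : Prop :=
  ∀ (L V : ℕ) (θ : ℝ), 1 ≤ L → |θ| ≤ 2 * Real.pi * V →
    h L θ ≤ ∑ v ∈ Finset.Icc (-(V : ℤ)) V, g (2 * L / Real.pi) (θ - 2 * Real.pi * v)

/-- JOB SEPH (assume `StKer`, `StSepK`): separated points, periodic kernel -/
def StSepH : Prop :=
  ∀ (ι : Type) (S : Finset ι) (r : ℕ) (z : ι → Fin r → ℝ) (L V : ℕ) (σ : ℝ) (K : ℕ), 1 ≤ L →
    0 < σ → 1 ≤ K → 4 * Real.pi * V ≤ K * σ →
      (∀ p ∈ S, ∀ q ∈ S, p ≠ q → ∃ l, σ ≤ |z p l - z q l|) →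
        (∀ p ∈ S, ∀ l, |z p l| ≤ 2 * Real.pi * V) →
          ∑ p ∈ S, ∏ l, h L (z p l) ≤
            ((2 * V + 1) * (2 * (1 + Real.pi / (L * σ) * (1 + Real.log K)))) ^ r

/-- a bound for the frequencies -/
def Vc (m N B : ℕ) : ℕ := (m + 1) * B * (Nat.log 2 N + 1)

/-- the constant -/
noncomputable def Qh (m N B L : ℕ) : ℝ :=
  (2 * (Vc m N B : ℝ) + 1) * (2 * (1 + Real.pi * ((m + 1).factorial * (B : ℝ) ^ (m + 1) * N) / L *
    (1 + Real.log (13 * Vc m N B * ((m + 1).factorial * (B : ℝ) ^ (m + 1) * N)))))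

/-- JOB NSUMH (assume `StSepH`, `StMinor`, `StAdj`): the sum over the integers -/
def StNSumH : Prop :=
  ∀ (N B : ℕ), 1 ≤ N → 1 ≤ B → ∀ I : Finset ℕ, (∀ n ∈ I, 1 ≤ n ∧ n ≤ N) →
    ∀ (d m : ℕ) (a : Fin (m + 1) → Fin d → ℤ), (∀ j j' i, |a j i - a j' i| ≤ B) → ∀ L : ℕ, 1 ≤ L →
      ∑ n : Fin (m + 1) → I, ∏ i, h L (freq a (fun j => (n j : ℕ)) i) ≤
        (I.card : ℝ) ^ (m + 1 - rk a) * Qh m N B L ^ (rk a)

end Pool.Agent.K7.H49.ML
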