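import Mathlib

set_option autoImplicit false

/-!
# Fourth moment for Montgomery's large values conjecture on generic linear images:
definitions and statements of the jobs
-/

open Finset MeasureTheory

namespace Pool.Agent.K7.H49.ML

/-- The point `x·a + s a` of the real line. -/
noncomputable def pt {d : ℕ} (s : (Fin d → ℤ) → ℝ) (a : Fin d → ℤ) (x : Fin d → ℝ) : ℝ :=
  (∑ i, (a i : ℝ) * x i) + s a

/-- the `3 × 3` minor (coordinates `i`, `j`, `k`) of the matrix with the columns `a - e`, `b - e`, `c - e` -/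
def det3 {d : ℕ} (a b c e : Fin d → ℤ) (i j k : Fin d) : ℤ :=
  (a i - e i) * ((b j - e j) * (c k - e k) - (c j - e j) * (b k - e k)) -
    (b i - e i) * ((a j - e j) * (c k - e k) - (c j - e j) * (a k - e k)) +
    (c i - e i) * ((a j - e j) * (b k - e k) - (b j - e j) * (a k - e k))

/-- the four points lie in a common plane -/
def Flat {d : ℕ} (a b c e : Fin d → ℤ) : Prop := ∀ i j k : Fin d, det3 a b c e i j k = 0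

/-- `min (1, 2 / (Λ |θ|))` -/
noncomputable def g (Λ θ : ℝ) : ℝ := (max 1 (Λ * |θ| / 2))⁻¹

/-- The box `[Λ, 2Λ]^d`. -/
def box (d : ℕ) (Λ : ℝ) : Set (Fin d → ℝ) := Set.univ.pi (fun _ => Set.Icc Λ (2 * Λ))

open Classical in
/-- the Gram matrix of the rows `e a`, without the diagonal -/
noncomputable def M {α : Type} (I : Finset ℕ) (e : α → ℕ → ℂ) (a b : α) : ℂ :=
  if a = b then 0 else ∑ n ∈ I, e a n * (starRingEnd ℂ) (e b n)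

/-- JOB LA: duality and the fourth Schatten norm of the matrix without the diagonal -/
def StLA : Prop :=
  ∀ (α : Type) (A : Finset α) (I : Finset ℕ) (e : α → ℕ → ℂ), (∀ a n, ‖e a n‖ = 1) →
    ∀ H : ℝ, 0 ≤ H → ∑ a ∈ A, ∑ c ∈ A, ‖∑ b ∈ A, M I e a b * M I e b c‖ ^ 2 ≤ H ^ 4 →
      ∀ b : ℕ → ℂ, ∑ a ∈ A, ‖∑ n ∈ I, b n * e a n‖ ^ 2 ≤ ((I.card : ℝ) + H) * ∑ n ∈ I, ‖b n‖ ^ 2

/-- JOB BOX: oscillatory integrals over the box (compare `Pool.Agent.Y959.Gen.int_box_eq`, `int_one`, `int_one'`) -/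
def StBox : Prop :=
  ∀ (d : ℕ) (Λ : ℝ) (θ : Fin d → ℝ) (c : ℝ), 0 < Λ →
    ‖∫ x in box d Λ, Complex.exp ((((∑ i, θ i * x i) + c : ℝ) : ℂ) * Complex.I)‖ ≤
      Λ ^ d * ∏ i, g Λ (θ i)

/-- JOB SEP: sums over separated points of `ℝ³` -/
def StSep : Prop :=
  ∀ (ι : Type) (S : Finset ι) (z : ι → Fin 3 → ℝ) (Λ σ : ℝ) (K : ℕ), 0 < Λ → 0 < σ → 1 ≤ K →
    (∀ p ∈ S, ∀ q ∈ S, p ≠ q → ∃ l, σ ≤ |z p l - z q l|) → (∀ p ∈ S, ∀ l, |z p l| ≤ K * σ) →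
      ∑ p ∈ S, ∏ l, g Λ (z p l) ≤ (2 * (1 + 2 / (Λ * σ) * (1 + Real.log K))) ^ 3

/-- the frequency of `x i` in the product of the four kernels -/
noncomputable def th {d : ℕ} (a b c e : Fin d → ℤ) (n₁ n₂ n₃ n₄ : ℕ) (i : Fin d) : ℝ :=
  (a i : ℝ) * (Real.log n₁ - Real.log n₄) + (b i : ℝ) * (Real.log n₂ - Real.log n₁) +
    (c i : ℝ) * (Real.log n₃ - Real.log n₂) + (e i : ℝ) * (Real.log n₄ - Real.log n₃)

/-- JOB IND (assume `StSep`): independent quadruples -/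
def StInd : Prop :=
  ∀ (N B : ℕ), 1 ≤ N → 1 ≤ B → ∀ I : Finset ℕ, (∀ n ∈ I, 1 ≤ n ∧ n ≤ N) →
    ∀ (d : ℕ) (a b c e : Fin d → ℤ), (∀ i, |a i - e i| ≤ B ∧ |b i - e i| ≤ B ∧ |c i - e i| ≤ B) →
      ∀ i j k : Fin d, det3 a b c e i j k ≠ 0 → ∀ Λ : ℝ, 0 < Λ → ∀ n₄ ∈ I,
        ∑ n₁ ∈ I, ∑ n₂ ∈ I, ∑ n₃ ∈ I, g Λ (th a b c e n₁ n₂ n₃ n₄ i) *
            g Λ (th a b c e n₁ n₂ n₃ n₄ j) * g Λ (th a b c e n₁ n₂ n₃ n₄ k) ≤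
          (2 * (1 + 12 * (B : ℝ) ^ 2 * N / Λ * (1 + Real.log (18 * (B : ℝ) ^ 3 * (N : ℝ) ^ 2)))) ^ 3

/-- JOB FOUR: the fourth moment of the kernel -/
def StFour : Prop :=
  ∀ ε : ℝ, 0 < ε → ∃ C : ℝ, 1 ≤ C ∧ ∀ N : ℕ, 1 ≤ N → ∀ I : Finset ℕ, (∀ n ∈ I, 1 ≤ n ∧ n ≤ N) →
    ∀ Λ u : ℝ, 0 < Λ → 1 ≤ |u| →
      ∑ n₁ ∈ I, ∑ n₂ ∈ I, ∑ n₃ ∈ I, ∑ n₄ ∈ I,
          g Λ (u * (Real.log n₁ - Real.log n₂ + Real.log n₃ - Real.log n₄)) ≤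
        C * (N : ℝ) ^ ε * (I.card : ℝ) ^ 2 * (1 + (N : ℝ) ^ 2 / Λ)

open Classical in
/-- the number of coplanar quadruples of `A` -/
noncomputable def quad {d : ℕ} (A : Finset (Fin d → ℤ)) : ℕ :=
  ((A ×ˢ A ×ˢ A ×ˢ A).filter fun q => Flat q.1 q.2.1 q.2.2.1 q.2.2.2).card

/-- JOB CUBE: subsets of the cube `{0,1}^d` -/
def StCube : Prop :=
  ∀ (d : ℕ) (A : Finset (Fin d → ℤ)), (∀ a ∈ A, ∀ i, a i = 0 ∨ a i = 1) → quad A ≤ 9 * A.card ^ 3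

/-- the row of the point `t_a(x)` -/
noncomputable def row {d : ℕ} (s : (Fin d → ℤ) → ℝ) (x : Fin d → ℝ) (a : Fin d → ℤ) (n : ℕ) : ℂ :=
  Complex.exp (((pt s a x * Real.log (n : ℝ) : ℝ) : ℂ) * Complex.I)

/-- the constant of `StInd` -/
noncomputable def cI (N B : ℕ) (Λ : ℝ) : ℝ :=
  (2 * (1 + 12 * (B : ℝ) ^ 2 * N / Λ * (1 + Real.log (18 * (B : ℝ) ^ 3 * (N : ℝ) ^ 2)))) ^ 3

/-- JOB MEAN (assume `StBox`, `StInd`, `StFour`): the mean of the fourth moment -/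
def StMean : Prop :=
  ∀ ε : ℝ, 0 < ε → ∃ C : ℝ, 1 ≤ C ∧ ∀ (N B : ℕ), 1 ≤ N → 1 ≤ B → ∀ I : Finset ℕ,
    (∀ n ∈ I, 1 ≤ n ∧ n ≤ N) → ∀ (d : ℕ) (A : Finset (Fin d → ℤ)),
      (∀ a ∈ A, ∀ b ∈ A, ∀ i, |a i - b i| ≤ B) → ∀ (s : (Fin d → ℤ) → ℝ) (Λ : ℝ), 0 < Λ →
        ∫ x in box d Λ, (∑ a ∈ A, ∑ c ∈ A, ‖∑ b ∈ A, M I (row s x) a b * M I (row s x) b c‖ ^ 2) ≤
          Λ ^ d * (cI N B Λ * I.card * (A.card : ℝ) ^ 4 +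
            C * (N : ℝ) ^ ε * (I.card : ℝ) ^ 2 * (1 + (N : ℝ) ^ 2 / Λ) * quad A)

end Pool.Agent.K7.H49.ML
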