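import Pool.Agent.Y959.Gen.Box
import Pool.Agent.K7.H49.ML.Stm

set_option autoImplicit false

open Finset MeasureTheory

namespace Pool.Agent.K7.H49.ML

theorem g_nonneg (Λ θ : ℝ) : 0 ≤ g Λ θ := by unfold g; positivity

theorem g_le_one (Λ θ : ℝ) : g Λ θ ≤ 1 := by
  unfold g
  exact inv_le_one_of_one_le₀ (le_max_left _ _)

theorem int_g (Λ θ : ℝ) (hΛ : 0 < Λ) :
    ‖∫ x in Set.Icc Λ (2 * Λ), Complex.exp ((θ * x : ℝ) * Complex.I)‖ ≤ Λ * g Λ θ := by
  unfold g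
  rcases le_or_gt (Λ * |θ| / 2) 1 with h | h
  · rw [max_eq_left h, inv_one, mul_one]
    exact Pool.Agent.Y959.Gen.int_one Λ θ hΛ
  · rw [max_eq_right h.le]
    have hθ : θ ≠ 0 := by
      rintro rfl
      rw [abs_zero] at h
      norm_num at h
    have hθ' : 0 < |θ| := abs_pos.2 hθ
    refine (Pool.Agent.Y959.Gen.int_one' Λ θ hΛ hθ).trans (le_of_eq ?_)
    field_simp

theorem stBox : StBox := by
  intro d Λ θ c hΛ
  have h := Pool.Agent.Y959.Gen.int_box_eq (D := Fin d) Λ θ c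
  have e : box d Λ = Pool.Agent.Y959.Gen.box (Fin d) Λ := rfl
  rw [e, h, norm_mul, Complex.norm_exp_ofReal_mul_I, mul_one, norm_prod]
  calc ∏ i, ‖∫ y in Set.Icc Λ (2 * Λ), Complex.exp ((θ i * y : ℝ) * Complex.I)‖
      ≤ ∏ i : Fin d, (Λ * g Λ (θ i)) := prod_le_prod (fun _ _ => norm_nonneg _) fun i _ => int_g Λ (θ i) hΛ
    _ = Λ ^ d * ∏ i, g Λ (θ i) := by
        rw [prod_mul_distrib, prod_const, card_univ, Fintype.card_fin]

end Pool.Agent.K7.H49.ML
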