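import Pool.Agent.K7.H49.ML.Mean

set_option autoImplicit false

open Finset MeasureTheory

namespace Pool.Agent.K7.H49.ML

variable {d : ℕ}

/-- the bound for the mean of the fourth moment -/
noncomputable def Yb (C ε : ℝ) (N B : ℕ) (I : Finset ℕ) (A : Finset (Fin d → ℤ)) (Λ : ℝ) : ℝ :=
  cI N B Λ * I.card * (A.card : ℝ) ^ 4 +
            C * (N : ℝ) ^ ε * (I.card : ℝ) ^ 2 * (1 + (N : ℝ) ^ 2 / Λ) * quad A

theorem cI_pos {N B : ℕ} (hN : 1 ≤ N) (hB : 1 ≤ B) {Λ : ℝ} (hΛ : 0 < Λ) : 0 < cI N B Λ := by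
  unfold cI
  have hN' : (1 : ℝ) ≤ N := by exact_mod_cast hN
  have hB' : (1 : ℝ) ≤ B := by exact_mod_cast hB
  have h1 : 0 ≤ Real.log (18 * (B : ℝ) ^ 3 * (N : ℝ) ^ 2) := by
    apply Real.log_nonneg
    have h2 : (1 : ℝ) ≤ (B : ℝ) ^ 3 := one_le_pow₀ hB'
    have h3 : (1 : ℝ) ≤ (N : ℝ) ^ 2 := one_le_pow₀ hN'
    nlinarith
  positivity

theorem M_cont (I : Finset ℕ) (s : (Fin d → ℤ) → ℝ) (a b : Fin d → ℤ) :
    Continuous (fun x => M I (row s x) a b) := by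
  classical
  by_cases h : a = b
  · subst h
    simp only [M_self]
    exact continuous_const
  · have : (fun x => M I (row s x) a b) = KK I s a b := funext fun x => M_eq I s a b x h
    rw [this]
    exact KK_cont I s a b

/-- Markov's inequality and duality -/
theorem main (hLA : StLA) (hMean : StMean) (ε : ℝ) (hε : 0 < ε) : ∃ C : ℝ, 1 ≤ C ∧ ∀ (N B : ℕ), 1 ≤ N →
    1 ≤ B → ∀ I : Finset ℕ, (∀ n ∈ I, 1 ≤ n ∧ n ≤ N) → ∀ (d : ℕ) (A : Finset (Fin d → ℤ)),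
      (∀ a ∈ A, ∀ b ∈ A, ∀ i, |a i - b i| ≤ B) → ∀ (s : (Fin d → ℤ) → ℝ) (Λ η : ℝ), 0 < Λ → 0 < η →
        ∃ E : Set (Fin d → ℝ), MeasurableSet E ∧ volume E ≤ ENNReal.ofReal (η * Λ ^ d) ∧
          ∀ x : Fin d → ℝ, (∀ i, x i ∈ Set.Icc Λ (2 * Λ)) → x ∉ E → ∀ b : ℕ → ℂ,
            ∑ a ∈ A, ‖∑ n ∈ I, b n * row s x a n‖ ^ 2 ≤
              ((I.card : ℝ) + (Yb C ε N B I A Λ / η) ^ (1 / 4 : ℝ)) * ∑ n ∈ I, ‖b n‖ ^ 2 := by
  obtain ⟨C, hC, h⟩ := hMean ε hε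
  refine ⟨C, hC, fun N B hN hB I hIN d A hA s Λ η hΛ hη => ?_⟩
  have hmean := h N B hN hB I hIN d A hA s Λ hΛ
  have hΛd : 0 < Λ ^ d := by positivity
  have hcI := cI_pos hN hB hΛ
  have hN' : (0 : ℝ) < N := by exact_mod_cast hN
  have hY0 : 0 ≤ Yb C ε N B I A Λ := by
    unfold Yb
    positivity
  rcases Nat.eq_zero_or_pos I.card with hI0 | hI0
  · refine ⟨∅, MeasurableSet.empty, by simp, fun x _ _ b => ?_⟩
    rw [card_eq_zero] at hI0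
    subst hI0
    simp
  rcases Nat.eq_zero_or_pos A.card with hA0 | hA0
  · refine ⟨∅, MeasurableSet.empty, by simp, fun x _ _ b => ?_⟩
    rw [card_eq_zero] at hA0
    subst hA0
    simp only [sum_empty]
    have h1 : 0 ≤ (Yb C ε N B I (∅ : Finset (Fin d → ℤ)) Λ / η) ^ (1 / 4 : ℝ) :=
      Real.rpow_nonneg (div_nonneg hY0 hη.le) _
    have h2 : 0 ≤ ∑ n ∈ I, ‖b n‖ ^ 2 := sum_nonneg fun _ _ => by positivity
    positivity
  have hI1 : (0 : ℝ) < I.card := by exact_mod_cast hI0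
  have hA1 : (0 : ℝ) < A.card := by exact_mod_cast hA0
  have hY : 0 < Yb C ε N B I A Λ := by
    unfold Yb
    have h1 : 0 < cI N B Λ * I.card * (A.card : ℝ) ^ 4 := by positivity
    have h2 : 0 ≤ C * (N : ℝ) ^ ε * (I.card : ℝ) ^ 2 * (1 + (N : ℝ) ^ 2 / Λ) * quad A := by positivity
    linarith
  obtain ⟨Y, hYdef⟩ : ∃ Y, Y = Yb C ε N B I A Λ := ⟨_, rfl⟩
  rw [← hYdef] at hY ⊢
  obtain ⟨f, hf⟩ : ∃ f : (Fin d → ℝ) → ℝ, f = fun x =>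
      ∑ a ∈ A, ∑ c ∈ A, ‖∑ b ∈ A, M I (row s x) a b * M I (row s x) b c‖ ^ 2 := ⟨_, rfl⟩
  have hfc : Continuous f := by
    rw [hf]
    refine continuous_finsetSum _ fun a _ => continuous_finsetSum _ fun c _ => ?_
    refine (Continuous.norm ?_).pow 2
    exact continuous_finsetSum _ fun b _ => (M_cont I s a b).mul (M_cont I s b c)
  have hf0 : ∀ x, 0 ≤ f x := by
    intro x
    rw [hf]
    exact sum_nonneg fun _ _ => sum_nonneg fun _ _ => by positivity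
  have hmean' : ∫ x in box d Λ, f x ≤ Λ ^ d * Y := by
    rw [hf, hYdef]
    exact hmean
  have hbm : MeasurableSet (box d Λ) := MeasurableSet.univ_pi fun _ => measurableSet_Icc
  refine ⟨box d Λ ∩ {x | Y / η ≤ f x}, hbm.inter (isClosed_le continuous_const hfc).measurableSet, ?_, ?_⟩
  · have hmark := mul_meas_ge_le_integral_of_nonneg (μ := volume.restrict (box d Λ)) (f := f)
      (Filter.Eventually.of_forall hf0) (hfc.continuousOn.integrableOn_compact (box_compact Λ)) (Y / η)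
    have h1 : Y / η * (volume.restrict (box d Λ)).real {x | Y / η ≤ f x} ≤ Λ ^ d * Y :=
      hmark.trans hmean'
    have h2 : (volume.restrict (box d Λ)).real {x | Y / η ≤ f x} ≤ η * Λ ^ d := by
      have h3 : 0 < Y / η := div_pos hY hη
      rw [← mul_le_mul_iff_right₀ h3]
      refine h1.trans (le_of_eq ?_)
      field_simp
    have h3 : volume (box d Λ ∩ {x | Y / η ≤ f x}) = (volume.restrict (box d Λ)) {x | Y / η ≤ f x} := by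
      rw [Measure.restrict_apply (isClosed_le continuous_const hfc).measurableSet, Set.inter_comm]
    rw [h3]
    have h4 : (volume.restrict (box d Λ)) {x | Y / η ≤ f x} ≠ ⊤ := by
      rw [← h3]
      exact ((measure_mono Set.inter_subset_left).trans_lt (box_compact Λ).measure_lt_top).ne
    rw [← ENNReal.ofReal_toReal h4]
    exact ENNReal.ofReal_le_ofReal h2
  · intro x hx hxE b
    have hxbox : x ∈ box d Λ := fun i _ => hx i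
    have hfx : f x ≤ Y / η := by
      by_contra hcon
      push Not at hcon
      exact hxE ⟨hxbox, hcon.le⟩
    have hYη : 0 ≤ Y / η := by positivity
    refine hLA (Fin d → ℤ) A I (row s x) (fun a n => ?_) ((Y / η) ^ (1 / 4 : ℝ))
      (Real.rpow_nonneg hYη _) ?_ b
    · unfold row
      exact Complex.norm_exp_ofReal_mul_I _
    · have h5 : ((Y / η) ^ (1 / 4 : ℝ)) ^ 4 = Y / η := by
        rw [← Real.rpow_natCast, ← Real.rpow_mul hYη]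
        norm_num
      rw [h5]
      rw [hf] at hfx
      exact hfx

theorem log_absorb (ε : ℝ) (hε : 0 < ε) : ∃ C : ℝ, 1 ≤ C ∧ ∀ y : ℝ, 1 ≤ y →
    (2 * (1 + 12 * (1 + Real.log (18 * y ^ 3)))) ^ 3 ≤ C * y ^ ε := by
  obtain ⟨δ, hδ⟩ : ∃ δ : ℝ, δ = ε / 3 := ⟨_, rfl⟩
  have hδ0 : 0 < δ := by rw [hδ]; positivity
  have hl18 : 0 ≤ Real.log 18 := Real.log_nonneg (by norm_num)
  refine ⟨(2 * (1 + 12 * (1 + Real.log 18 + 3 / δ))) ^ 3, ?_, fun y hy => ?_⟩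
  · apply one_le_pow₀
    have : 0 ≤ 3 / δ := by positivity
    nlinarith
  · have hy0 : 0 < y := by linarith
    have h1 : Real.log y ≤ y ^ δ / δ := Real.log_le_rpow_div hy0.le hδ0
    have h2 : 1 ≤ y ^ δ := Real.one_le_rpow hy hδ0.le
    have h3 : Real.log (18 * y ^ 3) = Real.log 18 + 3 * Real.log y := by
      rw [Real.log_mul (by norm_num) (by positivity), Real.log_pow]
      norm_num
    have h4 : 2 * (1 + 12 * (1 + Real.log (18 * y ^ 3))) ≤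
        (2 * (1 + 12 * (1 + Real.log 18 + 3 / δ))) * y ^ δ := by
      rw [h3]
      have h5 : 3 * Real.log y ≤ 3 / δ * y ^ δ := by
        calc 3 * Real.log y ≤ 3 * (y ^ δ / δ) := by linarith
          _ = 3 / δ * y ^ δ := by ring
      nlinarith
    have h0 : 0 ≤ 2 * (1 + 12 * (1 + Real.log (18 * y ^ 3))) := by
      have : 0 ≤ Real.log y := Real.log_nonneg hy
      rw [h3]
      nlinarith
    calc (2 * (1 + 12 * (1 + Real.log (18 * y ^ 3)))) ^ 3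
        ≤ ((2 * (1 + 12 * (1 + Real.log 18 + 3 / δ))) * y ^ δ) ^ 3 := pow_le_pow_left₀ h0 h4 3
      _ = (2 * (1 + 12 * (1 + Real.log 18 + 3 / δ))) ^ 3 * y ^ ε := by
          rw [mul_pow, ← Real.rpow_natCast (y ^ δ), ← Real.rpow_mul hy0.le]
          congr 2
          rw [hδ]
          push_cast
          ring

/-- the clean form -/
theorem clean (hLA : StLA) (hMean : StMean) (ε : ℝ) (hε : 0 < ε) : ∃ C : ℝ, 1 ≤ C ∧ ∀ (N B : ℕ), 1 ≤ N →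
    1 ≤ B → ∀ I : Finset ℕ, (∀ n ∈ I, 1 ≤ n ∧ n ≤ N) → ∀ (d : ℕ) (A : Finset (Fin d → ℤ)),
      (∀ a ∈ A, ∀ b ∈ A, ∀ i, |a i - b i| ≤ B) → ∀ (s : (Fin d → ℤ) → ℝ) (Λ η : ℝ),
        (B : ℝ) ^ 2 * N ≤ Λ → 0 < η → η ≤ 1 →
        ∃ E : Set (Fin d → ℝ), MeasurableSet E ∧ volume E ≤ ENNReal.ofReal (η * Λ ^ d) ∧
          ∀ x : Fin d → ℝ, (∀ i, x i ∈ Set.Icc Λ (2 * Λ)) → x ∉ E → ∀ b : ℕ → ℂ,
            ∑ a ∈ A, ‖∑ n ∈ I, b n * row s x a n‖ ^ 2 ≤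
              C * ((B : ℝ) * N) ^ ε * η ^ (-(1 / 4) : ℝ) * ((I.card : ℝ) +
                (I.card : ℝ) ^ (1 / 4 : ℝ) * A.card +
                (I.card : ℝ) ^ (1 / 2 : ℝ) * ((1 + (N : ℝ) ^ 2 / Λ) * quad A) ^ (1 / 4 : ℝ)) *
                ∑ n ∈ I, ‖b n‖ ^ 2 := by
  obtain ⟨C₁, hC₁, h1⟩ := main hLA hMean ε hε
  obtain ⟨C₂, hC₂, h2⟩ := log_absorb ε hε
  refine ⟨C₁ * C₂, by nlinarith, fun N B hN hB I hIN d A hA s Λ η hΛ hη hη1 => ?_⟩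
  have hN' : (1 : ℝ) ≤ N := by exact_mod_cast hN
  have hB' : (1 : ℝ) ≤ B := by exact_mod_cast hB
  have hB2 : (1 : ℝ) ≤ (B : ℝ) ^ 2 := one_le_pow₀ hB'
  have hΛ0 : 0 < Λ := by nlinarith
  obtain ⟨E, hE1, hE2, hE3⟩ := h1 N B hN hB I hIN d A hA s Λ η hΛ0 hη
  refine ⟨E, hE1, hE2, fun x hx hxE b => ?_⟩
  refine (hE3 x hx hxE b).trans ?_
  apply mul_le_mul_of_nonneg_right _ (sum_nonneg fun _ _ => by positivity)
  have hBN : (1 : ℝ) ≤ (B : ℝ) * N := by nlinarith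
  have hBNε : 1 ≤ ((B : ℝ) * N) ^ ε := Real.one_le_rpow hBN hε.le
  have hcI0 := cI_nonneg hN hB hΛ0
  have hlog0 : 0 ≤ Real.log (18 * (B : ℝ) ^ 3 * (N : ℝ) ^ 2) := by
    apply Real.log_nonneg
    have h2 : (1 : ℝ) ≤ (B : ℝ) ^ 3 := one_le_pow₀ hB'
    have h3 : (1 : ℝ) ≤ (N : ℝ) ^ 2 := one_le_pow₀ hN'
    nlinarith
  have hcI : cI N B Λ ≤ C₂ * ((B : ℝ) * N) ^ ε := by
    refine le_trans ?_ (h2 ((B : ℝ) * N) hBN)
    unfold cI
    apply pow_le_pow_left₀ (by positivity)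
    have h3 : Real.log (18 * (B : ℝ) ^ 3 * (N : ℝ) ^ 2) ≤ Real.log (18 * ((B : ℝ) * N) ^ 3) := by
      apply Real.log_le_log (by positivity)
      have h5 : (N : ℝ) ^ 2 ≤ (N : ℝ) ^ 3 := by nlinarith [sq_nonneg (N : ℝ)]
      have h6 : (0 : ℝ) ≤ 18 * (B : ℝ) ^ 3 := by positivity
      calc 18 * (B : ℝ) ^ 3 * (N : ℝ) ^ 2 ≤ 18 * (B : ℝ) ^ 3 * (N : ℝ) ^ 3 :=
            mul_le_mul_of_nonneg_left h5 h6
        _ = 18 * ((B : ℝ) * N) ^ 3 := by ring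
    have h4 : 12 * (B : ℝ) ^ 2 * N / Λ ≤ 12 := by
      rw [div_le_iff₀ hΛ0]
      linarith
    have h5 : 12 * (B : ℝ) ^ 2 * N / Λ * (1 + Real.log (18 * (B : ℝ) ^ 3 * (N : ℝ) ^ 2)) ≤
        12 * (1 + Real.log (18 * ((B : ℝ) * N) ^ 3)) := by
      apply mul_le_mul h4 (by linarith) (by linarith) (by norm_num)
    linarith
  obtain ⟨u, hu⟩ : ∃ u : ℝ, u = (I.card : ℝ) ^ (1 / 4 : ℝ) * A.card := ⟨_, rfl⟩
  obtain ⟨v, hv⟩ : ∃ v : ℝ, v = (I.card : ℝ) ^ (1 / 2 : ℝ) * ((1 + (N : ℝ) ^ 2 / Λ) * quad A) ^ (1 / 4 : ℝ) :=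
    ⟨_, rfl⟩
  have hu0 : 0 ≤ u := by rw [hu]; positivity
  have hW0 : 0 ≤ (1 + (N : ℝ) ^ 2 / Λ) * quad A := by positivity
  have hv0 : 0 ≤ v := by rw [hv]; positivity
  have hI0 : (0 : ℝ) ≤ I.card := by positivity
  have hu4 : u ^ 4 = (I.card : ℝ) * (A.card : ℝ) ^ 4 := by
    rw [hu, mul_pow, ← Real.rpow_natCast ((I.card : ℝ) ^ (1 / 4 : ℝ)), ← Real.rpow_mul hI0]
    norm_num
  have hv4 : v ^ 4 = (I.card : ℝ) ^ 2 * ((1 + (N : ℝ) ^ 2 / Λ) * quad A) := by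
    rw [hv, mul_pow, ← Real.rpow_natCast ((I.card : ℝ) ^ (1 / 2 : ℝ)), ← Real.rpow_mul hI0,
      ← Real.rpow_natCast (((1 + (N : ℝ) ^ 2 / Λ) * quad A) ^ (1 / 4 : ℝ)), ← Real.rpow_mul hW0]
    norm_num
  have hNε : (N : ℝ) ^ ε ≤ ((B : ℝ) * N) ^ ε :=
    Real.rpow_le_rpow (by positivity) (by nlinarith) hε.le
  have hNε1 : 1 ≤ (N : ℝ) ^ ε := Real.one_le_rpow hN' hε.le
  have hY : Yb C₁ ε N B I A Λ ≤ C₁ * C₂ * ((B : ℝ) * N) ^ ε * (u + v) ^ 4 := by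
    have h5 : u ^ 4 + v ^ 4 ≤ (u + v) ^ 4 := by
      have e : (u + v) ^ 4 = u ^ 4 + v ^ 4 + (4 * u ^ 3 * v + 6 * u ^ 2 * v ^ 2 + 4 * u * v ^ 3) := by ring
      have : 0 ≤ 4 * u ^ 3 * v + 6 * u ^ 2 * v ^ 2 + 4 * u * v ^ 3 := by positivity
      linarith
    have h6 : cI N B Λ * I.card * (A.card : ℝ) ^ 4 ≤ C₁ * C₂ * ((B : ℝ) * N) ^ ε * u ^ 4 := by
      rw [hu4, mul_assoc]
      apply mul_le_mul_of_nonneg_right _ (by positivity)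
      calc cI N B Λ ≤ C₂ * ((B : ℝ) * N) ^ ε := hcI
        _ = 1 * (C₂ * ((B : ℝ) * N) ^ ε) := by ring
        _ ≤ C₁ * (C₂ * ((B : ℝ) * N) ^ ε) := by
            apply mul_le_mul_of_nonneg_right hC₁ (by positivity)
        _ = C₁ * C₂ * ((B : ℝ) * N) ^ ε := by ring
    have h7 : C₁ * (N : ℝ) ^ ε * (I.card : ℝ) ^ 2 * (1 + (N : ℝ) ^ 2 / Λ) * quad A ≤
        C₁ * C₂ * ((B : ℝ) * N) ^ ε * v ^ 4 := by
      rw [hv4]
      have h8 : C₁ * (N : ℝ) ^ ε ≤ C₁ * C₂ * ((B : ℝ) * N) ^ ε := by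
        have h9 : C₁ * (N : ℝ) ^ ε ≤ C₁ * ((B : ℝ) * N) ^ ε := mul_le_mul_of_nonneg_left hNε (by linarith)
        have h10 : C₁ * ((B : ℝ) * N) ^ ε * 1 ≤ C₁ * ((B : ℝ) * N) ^ ε * C₂ :=
          mul_le_mul_of_nonneg_left hC₂ (by positivity)
        linarith
      calc C₁ * (N : ℝ) ^ ε * (I.card : ℝ) ^ 2 * (1 + (N : ℝ) ^ 2 / Λ) * quad A
          = C₁ * (N : ℝ) ^ ε * ((I.card : ℝ) ^ 2 * ((1 + (N : ℝ) ^ 2 / Λ) * quad A)) := by ring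
        _ ≤ _ := mul_le_mul_of_nonneg_right h8 (by positivity)
    unfold Yb
    have h11 : C₁ * C₂ * ((B : ℝ) * N) ^ ε * (u ^ 4 + v ^ 4) ≤
        C₁ * C₂ * ((B : ℝ) * N) ^ ε * (u + v) ^ 4 := mul_le_mul_of_nonneg_left h5 (by positivity)
    linarith
  have hK1 : 1 ≤ C₁ * C₂ * ((B : ℝ) * N) ^ ε := by
    exact one_le_mul_of_one_le_of_one_le (one_le_mul_of_one_le_of_one_le hC₁ hC₂) hBNε
  obtain ⟨K, hK⟩ : ∃ K : ℝ, K = C₁ * C₂ * ((B : ℝ) * N) ^ ε := ⟨_, rfl⟩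
  rw [← hK] at hY hK1 ⊢
  have hηr : 1 ≤ η ^ (-(1 / 4) : ℝ) := Real.one_le_rpow_of_pos_of_le_one_of_nonpos hη hη1 (by norm_num)
  have hη4 : (η ^ (-(1 / 4) : ℝ)) ^ 4 = η⁻¹ := by
    rw [← Real.rpow_natCast, ← Real.rpow_mul hη.le]
    norm_num
    exact Real.rpow_neg_one η
  have hYη : 0 ≤ Yb C₁ ε N B I A Λ / η := by
    apply div_nonneg _ hη.le
    unfold Yb
    positivity
  have hH : (Yb C₁ ε N B I A Λ / η) ^ (1 / 4 : ℝ) ≤ K * η ^ (-(1 / 4) : ℝ) * (u + v) := by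
    have h5 : ((Yb C₁ ε N B I A Λ / η) ^ (1 / 4 : ℝ)) ^ 4 ≤ (K * η ^ (-(1 / 4) : ℝ) * (u + v)) ^ 4 := by
      rw [← Real.rpow_natCast, ← Real.rpow_mul hYη, mul_pow, mul_pow, hη4]
      norm_num
      have h6 : K ≤ K ^ 4 := by
        calc K = K * 1 := by ring
          _ ≤ K * K ^ 3 := mul_le_mul_of_nonneg_left (one_le_pow₀ hK1) (by linarith)
          _ = K ^ 4 := by ring
      rw [div_eq_mul_inv]
      calc Yb C₁ ε N B I A Λ * η⁻¹ ≤ (K * (u + v) ^ 4) * η⁻¹ :=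
            mul_le_mul_of_nonneg_right hY (by positivity)
        _ ≤ (K ^ 4 * (u + v) ^ 4) * η⁻¹ := by gcongr
        _ = K ^ 4 * η⁻¹ * (u + v) ^ 4 := by ring
    exact le_of_pow_le_pow_left₀ (by norm_num) (by positivity) h5
  have hfin : (I.card : ℝ) ≤ K * η ^ (-(1 / 4) : ℝ) * I.card := by
    have h12 : 1 ≤ K * η ^ (-(1 / 4) : ℝ) := one_le_mul_of_one_le_of_one_le hK1 hηr
    calc (I.card : ℝ) = 1 * I.card := (one_mul _).symm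
      _ ≤ K * η ^ (-(1 / 4) : ℝ) * I.card := mul_le_mul_of_nonneg_right h12 hI0
  rw [add_assoc (I.card : ℝ), ← hu, ← hv, mul_add]
  linarith

end Pool.Agent.K7.H49.ML
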