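import Pool.Agent.K7.H49.ML.Moment

set_option autoImplicit false

/-!
# The final form of the large sieve for generic linear images
-/

open Finset MeasureTheory

namespace Pool.Agent.K7.H49.ML

theorem Qc_le (ε : ℝ) (hε : 0 < ε) (m : ℕ) : ∃ K : ℝ, 1 ≤ K ∧ ∀ (N B : ℕ), 1 ≤ N → 1 ≤ B →
    ∀ Λ : ℝ, 0 < Λ → Qc m N B Λ ≤ K * (B : ℝ) ^ (m + 2) * (N : ℝ) ^ ε * (1 + N / Λ) := by
  have hF : (1 : ℝ) ≤ (m + 1).factorial := by
    exact_mod_cast Nat.one_le_iff_ne_zero.2 (Nat.factorial_ne_zero _)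
  obtain ⟨F, hFd⟩ : ∃ F : ℝ, F = (m + 1).factorial := ⟨_, rfl⟩
  obtain ⟨K₂, hK₂⟩ : ∃ K₂ : ℝ, K₂ = 1 + (m + 1) * F + (m + 2) + 2 / ε := ⟨_, rfl⟩
  have hF1 : (1 : ℝ) ≤ F := by rw [hFd]; exact hF
  have hm0 : (0 : ℝ) ≤ m := by positivity
  have hK₂1 : 1 ≤ K₂ := by
    rw [hK₂]
    have : 0 < 2 / ε := by positivity
    nlinarith
  refine ⟨4 * F * K₂, by nlinarith, fun N B hN hB Λ hΛ => ?_⟩
  have hNr : (1 : ℝ) ≤ N := by exact_mod_cast hN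
  have hBr : (1 : ℝ) ≤ B := by exact_mod_cast hB
  have hNε : 1 ≤ (N : ℝ) ^ ε := Real.one_le_rpow hNr hε.le
  have hlog : Real.log ((m + 1) * F * (B : ℝ) ^ (m + 2) * (N : ℝ) ^ 2) ≤
      ((m + 1) * F + (m + 2) + 2 / ε) * B * (N : ℝ) ^ ε := by
    have hmF : 0 < ((m : ℝ) + 1) * F := by positivity
    rw [Real.log_mul (by positivity) (by positivity), Real.log_mul hmF.ne' (by positivity),
      Real.log_pow, Real.log_pow]
    have h1 := Real.log_le_sub_one_of_pos hmF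
    have h2 : Real.log B ≤ B := (Real.log_le_sub_one_of_pos (by linarith)).trans (by linarith)
    have h3 : Real.log N ≤ (N : ℝ) ^ ε / ε := Real.log_le_rpow_div (by linarith) hε
    have h4 : (1 : ℝ) ≤ B * (N : ℝ) ^ ε := one_le_mul_of_one_le_of_one_le hBr hNε
    have h5 : (B : ℝ) ≤ B * (N : ℝ) ^ ε := le_mul_of_one_le_right (by linarith) hNε
    have h6 : (N : ℝ) ^ ε ≤ B * (N : ℝ) ^ ε := le_mul_of_one_le_left (by linarith) hBr
    have h7 : ((m : ℝ) + 1) * F ≤ (m + 1) * F * (B * (N : ℝ) ^ ε) :=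
      le_mul_of_one_le_right hmF.le h4
    have h8 : (((m + 2 : ℕ) : ℝ)) * Real.log B ≤ (m + 2) * (B * (N : ℝ) ^ ε) := by
      push_cast
      exact mul_le_mul_of_nonneg_left (h2.trans h5) (by positivity)
    have h9 : ((2 : ℕ) : ℝ) * Real.log N ≤ 2 / ε * (B * (N : ℝ) ^ ε) := by
      push_cast
      calc 2 * Real.log N ≤ 2 * ((N : ℝ) ^ ε / ε) := by linarith
        _ = 2 / ε * (N : ℝ) ^ ε := by ring
        _ ≤ _ := mul_le_mul_of_nonneg_left h6 (by positivity)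
    nlinarith
  have h10 : 1 + Real.log ((m + 1) * F * (B : ℝ) ^ (m + 2) * (N : ℝ) ^ 2) ≤
      K₂ * B * (N : ℝ) ^ ε := by
    have h4 : (1 : ℝ) ≤ B * (N : ℝ) ^ ε := one_le_mul_of_one_le_of_one_le hBr hNε
    rw [hK₂]
    nlinarith
  unfold Qc
  rw [← hFd]
  have hBm : (1 : ℝ) ≤ (B : ℝ) ^ (m + 2) := one_le_pow₀ hBr
  have h11 : 2 * (F * (B : ℝ) ^ (m + 1) * N) / Λ *
      (1 + Real.log ((m + 1) * F * (B : ℝ) ^ (m + 2) * (N : ℝ) ^ 2)) ≤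
      2 * (F * (B : ℝ) ^ (m + 1) * N) / Λ * (K₂ * B * (N : ℝ) ^ ε) :=
    mul_le_mul_of_nonneg_left h10 (by positivity)
  have h12 : 2 * (F * (B : ℝ) ^ (m + 1) * N) / Λ * (K₂ * B * (N : ℝ) ^ ε) =
      2 * F * K₂ * (B : ℝ) ^ (m + 2) * (N : ℝ) ^ ε * (N / Λ) := by
    rw [pow_succ (B : ℝ) (m + 1)]
    ring
  have h13 : 1 ≤ F * K₂ * (B : ℝ) ^ (m + 2) * (N : ℝ) ^ ε :=
    one_le_mul_of_one_le_of_one_le (one_le_mul_of_one_le_of_one_le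
      (one_le_mul_of_one_le_of_one_le hF1 hK₂1) hBm) hNε
  calc 2 * (1 + 2 * (F * (B : ℝ) ^ (m + 1) * N) / Λ *
        (1 + Real.log ((m + 1) * F * (B : ℝ) ^ (m + 2) * (N : ℝ) ^ 2)))
      ≤ 2 * (1 + 2 * F * K₂ * (B : ℝ) ^ (m + 2) * (N : ℝ) ^ ε * (N / Λ)) := by
        rw [← h12]
        linarith
    _ ≤ 4 * F * K₂ * (B : ℝ) ^ (m + 2) * (N : ℝ) ^ ε * (1 + N / Λ) := by
        have h14 : 0 ≤ F * K₂ * (B : ℝ) ^ (m + 2) * (N : ℝ) ^ ε * (N / Λ) := by positivity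
        nlinarith

/-- The final form. -/
theorem clean2 (hNS : StNSum) (hC : StCount) (ε : ℝ) (hε : 0 < ε) : ∃ (K : ℝ) (κ : ℕ), 1 ≤ K ∧
    ∀ N : ℕ, 1 ≤ N → ∀ I : Finset ℕ, (∀ n ∈ I, 1 ≤ n ∧ n ≤ N) → ∀ (d B : ℕ), 1 ≤ B →
      ∀ (A : Finset (Fin d → ℤ)) (s : (Fin d → ℤ) → ℝ) (Λ η : ℝ),
        (∀ a ∈ A, ∀ b ∈ A, ∀ i, |a i - b i| ≤ B) → 0 < Λ → 0 < η → η ≤ 1 →
        ∃ E : Set (Fin d → ℝ), MeasurableSet E ∧ volume E ≤ ENNReal.ofReal (η * Λ ^ d) ∧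
          ∀ x : Fin d → ℝ, (∀ i, x i ∈ Set.Icc Λ (2 * Λ)) → x ∉ E → ∀ b : ℕ → ℂ,
            ∑ a ∈ A, ‖∑ n ∈ I, b n *
              Complex.exp (Complex.I * (((∑ i, (a i : ℝ) * x i) + s a : ℝ) : ℂ) *
                (Real.log (n : ℝ) : ℂ))‖ ^ 2 ≤
              K * (B : ℝ) ^ κ * (N : ℝ) ^ ε * η ^ (-ε) * (1 + N / Λ) * (I.card + A.card) *
                ∑ n ∈ I, ‖b n‖ ^ 2 := by
  obtain ⟨m, hm⟩ : ∃ m : ℕ, 2 / ε ≤ m := ⟨⌈2 / ε⌉₊, Nat.le_ceil _⟩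
  have hm0 : (0 : ℝ) ≤ m := by positivity
  obtain ⟨ρ, hρ⟩ : ∃ ρ : ℝ, ρ = 1 / ((m : ℝ) + 1) := ⟨_, rfl⟩
  have hρ0 : 0 < ρ := by rw [hρ]; positivity
  have hρε : ρ ≤ ε / 2 := by
    rw [hρ, div_le_div_iff₀ (by positivity) (by norm_num)]
    rw [div_le_iff₀ hε] at hm
    nlinarith
  obtain ⟨K₁, hK₁, hQle⟩ := Qc_le (ε / 2) (by positivity) m
  refine ⟨K₁ * 3 ^ m, m + 2 + m, one_le_mul_of_one_le_of_one_le hK₁ (one_le_pow₀ (by norm_num)),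
    fun N hN I hI d B hB A s Λ η hA hΛ hη hη1 => ?_⟩
  have hNr : (1 : ℝ) ≤ N := by exact_mod_cast hN
  have hBr : (1 : ℝ) ≤ B := by exact_mod_cast hB
  rcases Nat.eq_zero_or_pos I.card with hI0 | hI0
  · refine ⟨∅, MeasurableSet.empty, by simp, fun x _ _ b => ?_⟩
    rw [card_eq_zero] at hI0
    subst hI0
    simp
  rcases Nat.eq_zero_or_pos A.card with hA0 | hA0
  · refine ⟨∅, MeasurableSet.empty, by simp, fun x _ _ b => ?_⟩
    rw [card_eq_zero] at hA0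
    subst hA0
    rw [sum_empty]
    have h1 : 0 ≤ ∑ n ∈ I, ‖b n‖ ^ 2 := sum_nonneg fun _ _ => by positivity
    have h2 : 0 ≤ η ^ (-ε) := Real.rpow_nonneg hη.le _
    positivity
  obtain ⟨E, hE1, hE2, hE3⟩ := main2 hNS hC N B hN hB I hI hI0 d A hA0 hA s m Λ η hΛ hη
  refine ⟨E, hE1, hE2, fun x hx hxE b => (hE3 x hx hxE b).trans ?_⟩
  apply mul_le_mul_of_nonneg_right _ (sum_nonneg fun _ _ => by positivity)
  have hIr : (1 : ℝ) ≤ I.card := by exact_mod_cast hI0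
  have hAr : (1 : ℝ) ≤ A.card := by exact_mod_cast hA0
  have hIN : (I.card : ℝ) ≤ N := by
    have : I.card ≤ N := by
      have h1 : I ⊆ Finset.Icc 1 N := fun n hn => mem_Icc.2 (hI n hn)
      have := card_le_card h1
      rwa [Nat.card_Icc, Nat.add_sub_cancel] at this
    exact_mod_cast this
  have hQ1 := Qc_ge m N B hN hB Λ hΛ
  have hQ2 := hQle N B hN hB Λ hΛ
  obtain ⟨Q, hQd⟩ : ∃ Q, Q = Qc m N B Λ := ⟨_, rfl⟩
  rw [← hQd] at hQ1 hQ2 ⊢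
  obtain ⟨c, hc⟩ : ∃ c : ℝ, c = (2 * (B : ℝ) + 1) ^ m := ⟨_, rfl⟩
  have hc1 : 1 ≤ c := by rw [hc]; exact one_le_pow₀ (by linarith)
  have hc2 : c ≤ 3 ^ m * (B : ℝ) ^ m := by
    rw [hc, ← mul_pow]
    exact pow_le_pow_left₀ (by linarith) (by linarith) m
  rw [← hc]
  obtain ⟨X, hX⟩ : ∃ X : ℝ, X = I.card + A.card := ⟨_, rfl⟩
  have hX1 : 1 ≤ X := by rw [hX]; linarith
  have hstep : Q ^ m * (A.card * I.card * (A.card + I.card * c) ^ m) / η ≤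
      (Q * c * X) ^ (m + 1) * N * η⁻¹ := by
    rw [div_eq_mul_inv]
    apply mul_le_mul_of_nonneg_right _ (by positivity)
    have h1 : (A.card : ℝ) + I.card * c ≤ c * X := by
      rw [hX]
      nlinarith
    have h2 : ((A.card : ℝ) + I.card * c) ^ m ≤ (c * X) ^ m :=
      pow_le_pow_left₀ (by positivity) h1 m
    have h3 : (A.card : ℝ) ≤ c * X := by
      rw [hX]
      nlinarith
    have h4 : (A.card : ℝ) * I.card ≤ c * X * N := mul_le_mul h3 hIN (by positivity) (by positivity)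
    have h5 : Q ^ m ≤ Q ^ (m + 1) := pow_le_pow_right₀ hQ1 (by omega)
    calc Q ^ m * (A.card * I.card * (A.card + I.card * c) ^ m)
        ≤ Q ^ (m + 1) * (c * X * N * (c * X) ^ m) := by gcongr
      _ = (Q * c * X) ^ (m + 1) * N := by
          rw [mul_assoc Q c X, mul_pow Q, pow_succ (c * X) m]
          ring
  have hQcX : 0 < Q * c * X := by positivity
  have h0 : 0 ≤ Q ^ m * (A.card * I.card * (A.card + I.card * c) ^ m) / η := by positivity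
  rw [← hρ, ← hX]
  have hρm : ((m + 1 : ℕ) : ℝ) * ρ = 1 := by
    rw [hρ]
    push_cast
    field_simp
  calc (Q ^ m * (A.card * I.card * (A.card + I.card * c) ^ m) / η) ^ ρ
      ≤ ((Q * c * X) ^ (m + 1) * N * η⁻¹) ^ ρ := Real.rpow_le_rpow h0 hstep hρ0.le
    _ = Q * c * X * (N : ℝ) ^ ρ * η ^ (-ρ) := by
        rw [Real.mul_rpow (by positivity) (by positivity), Real.mul_rpow (by positivity) (by positivity),
          ← Real.rpow_natCast (Q * c * X) (m + 1), ← Real.rpow_mul hQcX.le, hρm, Real.rpow_one,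
          Real.inv_rpow hη.le, Real.rpow_neg hη.le]
    _ ≤ (K₁ * (B : ℝ) ^ (m + 2) * (N : ℝ) ^ (ε / 2) * (1 + N / Λ)) * (3 ^ m * (B : ℝ) ^ m) * X *
          (N : ℝ) ^ (ε / 2) * η ^ (-ε) := by
        have e1 : (N : ℝ) ^ ρ ≤ (N : ℝ) ^ (ε / 2) := Real.rpow_le_rpow_of_exponent_le hNr hρε
        have e2 : η ^ (-ρ) ≤ η ^ (-ε) :=
          Real.rpow_le_rpow_of_exponent_ge hη hη1 (by linarith)
        have e3 : 0 ≤ η ^ (-ρ) := Real.rpow_nonneg hη.le _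
        gcongr
    _ = K₁ * 3 ^ m * (B : ℝ) ^ (m + 2 + m) * (N : ℝ) ^ ε * η ^ (-ε) * (1 + N / Λ) * X := by
        have e4 : (N : ℝ) ^ ε = (N : ℝ) ^ (ε / 2) * (N : ℝ) ^ (ε / 2) := by
          rw [← Real.rpow_add (by linarith)]
          congr 1
          ring
        rw [e4, pow_add (B : ℝ) (m + 2) m]
        ring

end Pool.Agent.K7.H49.ML
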