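import Pool.Agent.K7.H49.ML.MomentH

set_option autoImplicit false

/-!
# The final form of the large sieve for generic integral linear images
-/

open Finset

namespace Pool.Agent.K7.H49.ML

theorem Qh_le (ε : ℝ) (hε : 0 < ε) (m : ℕ) : ∃ K : ℝ, 1 ≤ K ∧ ∀ (N B L : ℕ), 1 ≤ N → 1 ≤ B →
    1 ≤ L → Qh m N B L ≤ K * (B : ℝ) ^ (m + 3) * (N : ℝ) ^ ε * (1 + N / L) := by
  have hF : (1 : ℝ) ≤ (m + 1).factorial := by
    exact_mod_cast Nat.one_le_iff_ne_zero.2 (Nat.factorial_ne_zero _)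
  obtain ⟨F, hFd⟩ : ∃ F : ℝ, F = (m + 1).factorial := ⟨_, rfl⟩
  obtain ⟨δ, hδ⟩ : ∃ δ : ℝ, δ = ε / 2 := ⟨_, rfl⟩
  have hδ0 : 0 < δ := by rw [hδ]; positivity
  obtain ⟨K₂, hK₂⟩ : ∃ K₂ : ℝ, K₂ = 1 + 13 * (m + 1) * F + (m + 2) + 2 / δ := ⟨_, rfl⟩
  obtain ⟨K₃, hK₃⟩ : ∃ K₃ : ℝ, K₃ = (m + 1) * (1 + 2 / δ) := ⟨_, rfl⟩
  have hF1 : (1 : ℝ) ≤ F := by rw [hFd]; exact hF
  have hm0 : (0 : ℝ) ≤ m := by positivity
  have hd0 : 0 < 2 / δ := by positivity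
  have hK₂1 : 1 ≤ K₂ := by
    rw [hK₂]
    have : 0 ≤ 13 * ((m : ℝ) + 1) * F := by positivity
    linarith
  have hK₃1 : 1 ≤ K₃ := by
    rw [hK₃]
    nlinarith
  refine ⟨24 * F * K₂ * K₃, ?_, fun N B L hN hB hL => ?_⟩
  · have := one_le_mul_of_one_le_of_one_le (one_le_mul_of_one_le_of_one_le hF1 hK₂1) hK₃1
    nlinarith
  have hNr : (1 : ℝ) ≤ N := by exact_mod_cast hN
  have hBr : (1 : ℝ) ≤ B := by exact_mod_cast hB
  have hLr : (0 : ℝ) < L := by exact_mod_cast hL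
  have hNδ : 1 ≤ (N : ℝ) ^ δ := Real.one_le_rpow hNr hδ0.le
  have hlogN : Real.log N ≤ (N : ℝ) ^ δ / δ := Real.log_le_rpow_div (by linarith) hδ0
  have hlog0 : 0 ≤ Real.log N := Real.log_nonneg hNr
  have hnl : ((Nat.log 2 N : ℕ) : ℝ) ≤ 2 * Real.log N := by
    have h1 : ((2 : ℕ) : ℝ) ^ (Nat.log 2 N) ≤ N := by
      exact_mod_cast Nat.pow_log_le_self 2 (by omega)
    have h2 := Real.log_le_log (by positivity) h1
    rw [Real.log_pow] at h2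
    have h3 : (1 : ℝ) / 2 ≤ Real.log ((2 : ℕ) : ℝ) := by
      have := Real.log_two_gt_d9
      push_cast
      linarith
    have h4 : ((Nat.log 2 N : ℕ) : ℝ) * (1 / 2) ≤ (Nat.log 2 N : ℕ) * Real.log ((2 : ℕ) : ℝ) :=
      mul_le_mul_of_nonneg_left h3 (by positivity)
    have h5 := h4.trans h2
    linarith
  have hV : (Vc m N B : ℝ) ≤ K₃ * (B * (N : ℝ) ^ δ) := by
    unfold Vc
    push_cast
    have h1 : ((Nat.log 2 N : ℕ) : ℝ) + 1 ≤ (1 + 2 / δ) * (N : ℝ) ^ δ := by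
      calc ((Nat.log 2 N : ℕ) : ℝ) + 1 ≤ 2 * ((N : ℝ) ^ δ / δ) + (N : ℝ) ^ δ := by linarith
        _ = _ := by ring
    calc ((m : ℝ) + 1) * B * ((Nat.log 2 N : ℕ) + 1)
        ≤ ((m : ℝ) + 1) * B * ((1 + 2 / δ) * (N : ℝ) ^ δ) :=
          mul_le_mul_of_nonneg_left h1 (by positivity)
      _ = _ := by rw [hK₃]; ring
  have hV1 : (1 : ℝ) ≤ Vc m N B := by
    have : 1 ≤ Vc m N B := by
      unfold Vc
      exact Nat.one_le_iff_ne_zero.2 (by positivity)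
    exact_mod_cast this
  have hV2 : (Vc m N B : ℝ) ≤ (m + 1) * B * N := by
    unfold Vc
    have h1 : Nat.log 2 N + 1 ≤ N := Nat.log_lt_self 2 (by omega)
    have h2 : ((Nat.log 2 N : ℕ) : ℝ) + 1 ≤ N := by exact_mod_cast h1
    push_cast
    exact mul_le_mul_of_nonneg_left h2 (by positivity)
  have h4 : (1 : ℝ) ≤ B * (N : ℝ) ^ δ := one_le_mul_of_one_le_of_one_le hBr hNδ
  have hlog : Real.log (13 * Vc m N B * (F * (B : ℝ) ^ (m + 1) * N)) ≤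
      (13 * (m + 1) * F + (m + 2) + 2 / δ) * (B * (N : ℝ) ^ δ) := by
    have h1 : 13 * (Vc m N B : ℝ) * (F * (B : ℝ) ^ (m + 1) * N) ≤
        13 * (m + 1) * F * (B : ℝ) ^ (m + 2) * (N : ℝ) ^ 2 := by
      calc 13 * (Vc m N B : ℝ) * (F * (B : ℝ) ^ (m + 1) * N)
          ≤ 13 * ((m + 1) * B * N) * (F * (B : ℝ) ^ (m + 1) * N) := by gcongr
        _ = _ := by rw [pow_succ (B : ℝ) (m + 1)]; ring
    have hmF : 0 < 13 * ((m : ℝ) + 1) * F := by positivity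
    refine (Real.log_le_log (by positivity) h1).trans ?_
    rw [Real.log_mul (by positivity) (by positivity), Real.log_mul hmF.ne' (by positivity),
      Real.log_pow, Real.log_pow]
    have g1 := Real.log_le_sub_one_of_pos hmF
    have g2 : Real.log B ≤ B := (Real.log_le_sub_one_of_pos (by linarith)).trans (by linarith)
    have g5 : (B : ℝ) ≤ B * (N : ℝ) ^ δ := le_mul_of_one_le_right (by linarith) hNδ
    have g6 : (N : ℝ) ^ δ ≤ B * (N : ℝ) ^ δ := le_mul_of_one_le_left (by linarith) hBr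
    have g7 : 13 * ((m : ℝ) + 1) * F ≤ 13 * (m + 1) * F * (B * (N : ℝ) ^ δ) :=
      le_mul_of_one_le_right hmF.le h4
    have g8 : (((m + 2 : ℕ) : ℝ)) * Real.log B ≤ (m + 2) * (B * (N : ℝ) ^ δ) := by
      push_cast
      exact mul_le_mul_of_nonneg_left (g2.trans g5) (by positivity)
    have g9 : ((2 : ℕ) : ℝ) * Real.log N ≤ 2 / δ * (B * (N : ℝ) ^ δ) := by
      push_cast
      calc 2 * Real.log N ≤ 2 * ((N : ℝ) ^ δ / δ) := by linarith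
        _ = 2 / δ * (N : ℝ) ^ δ := by ring
        _ ≤ _ := mul_le_mul_of_nonneg_left g6 (by positivity)
    nlinarith
  have h10 : 1 + Real.log (13 * Vc m N B * (F * (B : ℝ) ^ (m + 1) * N)) ≤
      K₂ * (B * (N : ℝ) ^ δ) := by
    rw [hK₂]
    nlinarith
  unfold Qh
  rw [← hFd]
  have hπ := Real.pi_pos
  have hπ4 : Real.pi ≤ 4 := Real.pi_le_four
  have hBm : (1 : ℝ) ≤ (B : ℝ) ^ (m + 2) := one_le_pow₀ hBr
  have h13 : 1 ≤ F * K₂ * (B : ℝ) ^ (m + 2) * (N : ℝ) ^ δ :=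
    one_le_mul_of_one_le_of_one_le (one_le_mul_of_one_le_of_one_le
      (one_le_mul_of_one_le_of_one_le hF1 hK₂1) hBm) hNδ
  have h11 : Real.pi * (F * (B : ℝ) ^ (m + 1) * N) / L *
      (1 + Real.log (13 * Vc m N B * (F * (B : ℝ) ^ (m + 1) * N))) ≤
      4 * (F * K₂ * (B : ℝ) ^ (m + 2) * (N : ℝ) ^ δ) * (N / L) := by
    calc Real.pi * (F * (B : ℝ) ^ (m + 1) * N) / L *
          (1 + Real.log (13 * Vc m N B * (F * (B : ℝ) ^ (m + 1) * N)))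
        ≤ Real.pi * (F * (B : ℝ) ^ (m + 1) * N) / L * (K₂ * (B * (N : ℝ) ^ δ)) :=
          mul_le_mul_of_nonneg_left h10 (by positivity)
      _ ≤ 4 * (F * (B : ℝ) ^ (m + 1) * N) / L * (K₂ * (B * (N : ℝ) ^ δ)) := by gcongr
      _ = _ := by rw [pow_succ (B : ℝ) (m + 1)]; ring
  have h16 : (1 : ℝ) ≤ 13 * Vc m N B * (F * (B : ℝ) ^ (m + 1) * N) := by
    have h17 : (1 : ℝ) ≤ F * (B : ℝ) ^ (m + 1) * N :=
      one_le_mul_of_one_le_of_one_le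
        (one_le_mul_of_one_le_of_one_le hF1 (one_le_pow₀ hBr)) hNr
    have h18 : (1 : ℝ) ≤ 13 * Vc m N B := by linarith
    exact one_le_mul_of_one_le_of_one_le h18 h17
  have h19 := Real.log_nonneg h16
  have hr : 0 ≤ (N : ℝ) / L := by positivity
  have h20 : 0 ≤ Real.pi * (F * (B : ℝ) ^ (m + 1) * N) / L *
      (1 + Real.log (13 * Vc m N B * (F * (B : ℝ) ^ (m + 1) * N))) :=
    mul_nonneg (by positivity) (by linarith)
  have h21 : (N : ℝ) ^ ε = (N : ℝ) ^ δ * (N : ℝ) ^ δ := by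
    rw [← Real.rpow_add (by linarith)]
    congr 1
    rw [hδ]
    ring
  have h14 : 2 * (Vc m N B : ℝ) + 1 ≤ 3 * (K₃ * (B * (N : ℝ) ^ δ)) := by linarith
  rw [h21]
  generalize Real.pi * (F * (B : ℝ) ^ (m + 1) * N) / L *
      (1 + Real.log (13 * Vc m N B * (F * (B : ℝ) ^ (m + 1) * N))) = X at *
  obtain ⟨Y, hY⟩ : ∃ Y : ℝ, Y = F * K₂ * (B : ℝ) ^ (m + 2) * (N : ℝ) ^ δ := ⟨_, rfl⟩
  obtain ⟨r, hrd⟩ : ∃ r : ℝ, r = (N : ℝ) / L := ⟨_, rfl⟩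
  rw [← hY, ← hrd] at h11
  rw [← hY] at h13
  rw [← hrd] at hr ⊢
  have h22 : 0 ≤ Y * r := by
    have : 0 ≤ Y := by linarith
    positivity
  have h12 : 2 * (1 + X) ≤ 8 * Y * (1 + r) := by linarith
  calc (2 * (Vc m N B : ℝ) + 1) * (2 * (1 + X))
      ≤ (3 * (K₃ * (B * (N : ℝ) ^ δ))) * (8 * Y * (1 + r)) :=
        mul_le_mul h14 h12 (by linarith) (by linarith)
    _ = 24 * F * K₂ * K₃ * (B : ℝ) ^ (m + 3) * ((N : ℝ) ^ δ * (N : ℝ) ^ δ) * (1 + r) := by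
        rw [hY, pow_succ (B : ℝ) (m + 2)]
        ring

/-- The final form. -/
theorem clean3 (hNS : StNSumH) (hC : StCount) (ε : ℝ) (hε : 0 < ε) : ∃ (K : ℝ) (κ : ℕ), 1 ≤ K ∧
    ∀ N : ℕ, 1 ≤ N → ∀ I : Finset ℕ, (∀ n ∈ I, 1 ≤ n ∧ n ≤ N) → ∀ (d B : ℕ), 1 ≤ B →
      ∀ (A : Finset (Fin d → ℤ)) (s : (Fin d → ℤ) → ℝ) (L : ℕ) (η : ℝ),
        (∀ a ∈ A, ∀ b ∈ A, ∀ i, |a i - b i| ≤ B) → 1 ≤ L → 0 < η → η ≤ 1 →
        ∃ E : Finset (Fin d → ℕ), (E.card : ℝ) ≤ η * (L : ℝ) ^ d ∧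
          ∀ x : Fin d → ℕ, (∀ i, L < x i ∧ x i ≤ 2 * L) → x ∉ E → ∀ b : ℕ → ℂ,
            ∑ a ∈ A, ‖∑ n ∈ I, b n *
              Complex.exp (Complex.I * (((∑ i, (a i : ℝ) * (x i : ℝ)) + s a : ℝ) : ℂ) *
                (Real.log (n : ℝ) : ℂ))‖ ^ 2 ≤
              K * (B : ℝ) ^ κ * (N : ℝ) ^ ε * η ^ (-ε) * (1 + N / L) * (I.card + A.card) *
                ∑ n ∈ I, ‖b n‖ ^ 2 := by
  obtain ⟨m, hm⟩ : ∃ m : ℕ, 2 / ε ≤ m := ⟨⌈2 / ε⌉₊, Nat.le_ceil _⟩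
  have hm0 : (0 : ℝ) ≤ m := by positivity
  obtain ⟨ρ, hρ⟩ : ∃ ρ : ℝ, ρ = 1 / ((m : ℝ) + 1) := ⟨_, rfl⟩
  have hρ0 : 0 < ρ := by rw [hρ]; positivity
  have hρε : ρ ≤ ε / 2 := by
    rw [hρ, div_le_div_iff₀ (by positivity) (by norm_num)]
    rw [div_le_iff₀ hε] at hm
    nlinarith
  obtain ⟨K₁, hK₁, hQle⟩ := Qh_le (ε / 2) (by positivity) m
  refine ⟨K₁ * 3 ^ m, m + 3 + m, one_le_mul_of_one_le_of_one_le hK₁ (one_le_pow₀ (by norm_num)),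
    fun N hN I hI d B hB A s L η hA hL hη hη1 => ?_⟩
  have hNr : (1 : ℝ) ≤ N := by exact_mod_cast hN
  have hBr : (1 : ℝ) ≤ B := by exact_mod_cast hB
  rcases Nat.eq_zero_or_pos I.card with hI0 | hI0
  · refine ⟨∅, by simp; positivity, fun x _ _ b => ?_⟩
    rw [card_eq_zero] at hI0
    subst hI0
    simp
  rcases Nat.eq_zero_or_pos A.card with hA0 | hA0
  · refine ⟨∅, by simp; positivity, fun x _ _ b => ?_⟩
    rw [card_eq_zero] at hA0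
    subst hA0
    rw [sum_empty]
    have h1 : 0 ≤ ∑ n ∈ I, ‖b n‖ ^ 2 := sum_nonneg fun _ _ => by positivity
    have h2 : 0 ≤ η ^ (-ε) := Real.rpow_nonneg hη.le _
    positivity
  obtain ⟨E, hE2, hE3⟩ := main2H hNS hC N B hN hB I hI hI0 d A hA0 hA s m L η hL hη
  have hLr : (0 : ℝ) < L := by exact_mod_cast hL
  refine ⟨E, hE2, fun x hx hxE b => (hE3 x hx hxE b).trans ?_⟩
  apply mul_le_mul_of_nonneg_right _ (sum_nonneg fun _ _ => by positivity)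
  have hIr : (1 : ℝ) ≤ I.card := by exact_mod_cast hI0
  have hAr : (1 : ℝ) ≤ A.card := by exact_mod_cast hA0
  have hIN : (I.card : ℝ) ≤ N := by
    have : I.card ≤ N := by
      have h1 : I ⊆ Finset.Icc 1 N := fun n hn => mem_Icc.2 (hI n hn)
      have := card_le_card h1
      rwa [Nat.card_Icc, Nat.add_sub_cancel] at this
    exact_mod_cast this
  have hQ1 := Qh_ge m N B L hN hB hL
  have hQ2 := hQle N B L hN hB hL
  obtain ⟨Q, hQd⟩ : ∃ Q, Q = Qh m N B L := ⟨_, rfl⟩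
  rw [← hQd] at hQ1 hQ2 ⊢
  obtain ⟨c, hc⟩ : ∃ c : ℝ, c = (2 * (B : ℝ) + 1) ^ m := ⟨_, rfl⟩
  have hc1 : 1 ≤ c := by rw [hc]; exact one_le_pow₀ (by linarith)
  have hc2 : c ≤ 3 ^ m * (B : ℝ) ^ m := by
    rw [hc, ← mul_pow]
    exact pow_le_pow_left₀ (by linarith) (by linarith) m
  rw [← hc]
  obtain ⟨X, hX⟩ : ∃ X : ℝ, X = I.card + A.card := ⟨_, rfl⟩
  have hX1 : 1 ≤ X := by rw [hX]; linarith
  have hstep : Q ^ m * (A.card * I.card * (A.card + I.card * c) ^ m) / η ≤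
      (Q * c * X) ^ (m + 1) * N * η⁻¹ := by
    rw [div_eq_mul_inv]
    apply mul_le_mul_of_nonneg_right _ (by positivity)
    have h1 : (A.card : ℝ) + I.card * c ≤ c * X := by
      rw [hX]
      nlinarith
    have h2 : ((A.card : ℝ) + I.card * c) ^ m ≤ (c * X) ^ m :=
      pow_le_pow_left₀ (by positivity) h1 m
    have h3 : (A.card : ℝ) ≤ c * X := by
      rw [hX]
      nlinarith
    have h4 : (A.card : ℝ) * I.card ≤ c * X * N := mul_le_mul h3 hIN (by positivity) (by positivity)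
    have h5 : Q ^ m ≤ Q ^ (m + 1) := pow_le_pow_right₀ hQ1 (by omega)
    calc Q ^ m * (A.card * I.card * (A.card + I.card * c) ^ m)
        ≤ Q ^ (m + 1) * (c * X * N * (c * X) ^ m) := by gcongr
      _ = (Q * c * X) ^ (m + 1) * N := by
          rw [mul_assoc Q c X, mul_pow Q, pow_succ (c * X) m]
          ring
  have hQcX : 0 < Q * c * X := by positivity
  have h0 : 0 ≤ Q ^ m * (A.card * I.card * (A.card + I.card * c) ^ m) / η := by positivity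
  rw [← hρ, ← hX]
  have hρm : ((m + 1 : ℕ) : ℝ) * ρ = 1 := by
    rw [hρ]
    push_cast
    field_simp
  calc (Q ^ m * (A.card * I.card * (A.card + I.card * c) ^ m) / η) ^ ρ
      ≤ ((Q * c * X) ^ (m + 1) * N * η⁻¹) ^ ρ := Real.rpow_le_rpow h0 hstep hρ0.le
    _ = Q * c * X * (N : ℝ) ^ ρ * η ^ (-ρ) := by
        rw [Real.mul_rpow (by positivity) (by positivity), Real.mul_rpow (by positivity) (by positivity),
          ← Real.rpow_natCast (Q * c * X) (m + 1), ← Real.rpow_mul hQcX.le, hρm, Real.rpow_one,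
          Real.inv_rpow hη.le, Real.rpow_neg hη.le]
    _ ≤ (K₁ * (B : ℝ) ^ (m + 3) * (N : ℝ) ^ (ε / 2) * (1 + N / L)) * (3 ^ m * (B : ℝ) ^ m) * X *
          (N : ℝ) ^ (ε / 2) * η ^ (-ε) := by
        have e1 : (N : ℝ) ^ ρ ≤ (N : ℝ) ^ (ε / 2) := Real.rpow_le_rpow_of_exponent_le hNr hρε
        have e2 : η ^ (-ρ) ≤ η ^ (-ε) :=
          Real.rpow_le_rpow_of_exponent_ge hη hη1 (by linarith)
        have e3 : 0 ≤ η ^ (-ρ) := Real.rpow_nonneg hη.le _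
        gcongr
    _ = K₁ * 3 ^ m * (B : ℝ) ^ (m + 3 + m) * (N : ℝ) ^ ε * η ^ (-ε) * (1 + N / L) * X := by
        have e4 : (N : ℝ) ^ ε = (N : ℝ) ^ (ε / 2) * (N : ℝ) ^ (ε / 2) := by
          rw [← Real.rpow_add (by linarith)]
          congr 1
          ring
        rw [e4, pow_add (B : ℝ) (m + 3) m]
        ring

end Pool.Agent.K7.H49.ML
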