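import Pool.Agent.K7.H49.ML.Twist
import Pool.Agent.K7.H49.ML.Fin2

set_option autoImplicit false

/-!
# The final form, with twists and boxes with sides of different lengths
-/

open Finset MeasureTheory

namespace Pool.Agent.K7.H49.ML

/-- The final form. -/
theorem clean4 (hNS : StNSum) (hC : StCount) (ε : ℝ) (hε : 0 < ε) : ∃ (K : ℝ) (κ : ℕ), 1 ≤ K ∧
    ∀ N : ℕ, 1 ≤ N → ∀ I : Finset ℕ, (∀ n ∈ I, 1 ≤ n ∧ n ≤ N) → ∀ (d B : ℕ), 1 ≤ B →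
      ∀ (A : Finset (Fin d → ℤ)) (c' : (Fin d → ℤ) → ℕ → ℂ) (Λ' : Fin d → ℝ) (Λ η : ℝ),
        (∀ a ∈ A, ∀ b ∈ A, ∀ i, |a i - b i| ≤ B) → (∀ a n, ‖c' a n‖ ≤ 1) → 0 < Λ →
        (∀ i, Λ ≤ Λ' i) → 0 < η → η ≤ 1 →
        ∃ E : Set (Fin d → ℝ), MeasurableSet E ∧ volume E ≤ ENNReal.ofReal (η * ∏ i, Λ' i) ∧
          ∀ x : Fin d → ℝ, (∀ i, x i ∈ Set.Icc (Λ' i) (2 * Λ' i)) → x ∉ E → ∀ b : ℕ → ℂ,
            ∑ a ∈ A, ‖∑ n ∈ I, b n * (c' a n *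
              Complex.exp (Complex.I * ((∑ i, (a i : ℝ) * x i : ℝ) : ℂ) *
                (Real.log (n : ℝ) : ℂ)))‖ ^ 2 ≤
              K * (B : ℝ) ^ κ * (N : ℝ) ^ ε * η ^ (-ε) * (1 + N / Λ) * (I.card + A.card) *
                ∑ n ∈ I, ‖b n‖ ^ 2 := by
  obtain ⟨m, hm⟩ : ∃ m : ℕ, 2 / ε ≤ m := ⟨⌈2 / ε⌉₊, Nat.le_ceil _⟩
  have hm0 : (0 : ℝ) ≤ m := by positivity
  obtain ⟨ρ, hρ⟩ : ∃ ρ : ℝ, ρ = 1 / ((m : ℝ) + 1) := ⟨_, rfl⟩
  have hρ0 : 0 < ρ := by rw [hρ]; positivity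
  have hρε : ρ ≤ ε / 2 := by
    rw [hρ, div_le_div_iff₀ (by positivity) (by norm_num)]
    rw [div_le_iff₀ hε] at hm
    nlinarith
  obtain ⟨K₁, hK₁, hQle⟩ := Qc_le (ε / 2) (by positivity) m
  refine ⟨K₁ * 3 ^ m, m + 2 + m, one_le_mul_of_one_le_of_one_le hK₁ (one_le_pow₀ (by norm_num)),
    fun N hN I hI d B hB A c' Λ' Λ η hA hc' hΛ hΛ' hη hη1 => ?_⟩
  have hNr : (1 : ℝ) ≤ N := by exact_mod_cast hN
  have hBr : (1 : ℝ) ≤ B := by exact_mod_cast hB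
  rcases Nat.eq_zero_or_pos I.card with hI0 | hI0
  · refine ⟨∅, MeasurableSet.empty, by simp, fun x _ _ b => ?_⟩
    rw [card_eq_zero] at hI0
    subst hI0
    simp
  rcases Nat.eq_zero_or_pos A.card with hA0 | hA0
  · refine ⟨∅, MeasurableSet.empty, by simp, fun x _ _ b => ?_⟩
    rw [card_eq_zero] at hA0
    subst hA0
    rw [sum_empty]
    have h1 : 0 ≤ ∑ n ∈ I, ‖b n‖ ^ 2 := sum_nonneg fun _ _ => by positivity
    have h2 : 0 ≤ η ^ (-ε) := Real.rpow_nonneg hη.le _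
    positivity
  obtain ⟨E, hE1, hE2, hE3⟩ := main2T hNS hC N B hN hB I hI hI0 A hA0 hA c' hc' m Λ' Λ η hΛ hΛ' hη
  refine ⟨E, hE1, hE2, fun x hx hxE b => (hE3 x hx hxE b).trans ?_⟩
  apply mul_le_mul_of_nonneg_right _ (sum_nonneg fun _ _ => by positivity)
  have hIr : (1 : ℝ) ≤ I.card := by exact_mod_cast hI0
  have hAr : (1 : ℝ) ≤ A.card := by exact_mod_cast hA0
  have hIN : (I.card : ℝ) ≤ N := by
    have : I.card ≤ N := by
      have h1 : I ⊆ Finset.Icc 1 N := fun n hn => mem_Icc.2 (hI n hn)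
      have := card_le_card h1
      rwa [Nat.card_Icc, Nat.add_sub_cancel] at this
    exact_mod_cast this
  have hQ1 := Qc_ge m N B hN hB Λ hΛ
  have hQ2 := hQle N B hN hB Λ hΛ
  obtain ⟨Q, hQd⟩ : ∃ Q, Q = Qc m N B Λ := ⟨_, rfl⟩
  rw [← hQd] at hQ1 hQ2 ⊢
  obtain ⟨c, hc⟩ : ∃ c : ℝ, c = (2 * (B : ℝ) + 1) ^ m := ⟨_, rfl⟩
  have hc1 : 1 ≤ c := by rw [hc]; exact one_le_pow₀ (by linarith)
  have hc2 : c ≤ 3 ^ m * (B : ℝ) ^ m := by
    rw [hc, ← mul_pow]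
    exact pow_le_pow_left₀ (by linarith) (by linarith) m
  rw [← hc]
  obtain ⟨X, hX⟩ : ∃ X : ℝ, X = I.card + A.card := ⟨_, rfl⟩
  have hX1 : 1 ≤ X := by rw [hX]; linarith
  have hstep : Q ^ m * (A.card * I.card * (A.card + I.card * c) ^ m) / η ≤
      (Q * c * X) ^ (m + 1) * N * η⁻¹ := by
    rw [div_eq_mul_inv]
    apply mul_le_mul_of_nonneg_right _ (by positivity)
    have h1 : (A.card : ℝ) + I.card * c ≤ c * X := by
      rw [hX]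
      nlinarith
    have h2 : ((A.card : ℝ) + I.card * c) ^ m ≤ (c * X) ^ m :=
      pow_le_pow_left₀ (by positivity) h1 m
    have h3 : (A.card : ℝ) ≤ c * X := by
      rw [hX]
      nlinarith
    have h4 : (A.card : ℝ) * I.card ≤ c * X * N := mul_le_mul h3 hIN (by positivity) (by positivity)
    have h5 : Q ^ m ≤ Q ^ (m + 1) := pow_le_pow_right₀ hQ1 (by omega)
    calc Q ^ m * (A.card * I.card * (A.card + I.card * c) ^ m)
        ≤ Q ^ (m + 1) * (c * X * N * (c * X) ^ m) := by gcongr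
      _ = (Q * c * X) ^ (m + 1) * N := by
          rw [mul_assoc Q c X, mul_pow Q, pow_succ (c * X) m]
          ring
  have hQcX : 0 < Q * c * X := by positivity
  have h0 : 0 ≤ Q ^ m * (A.card * I.card * (A.card + I.card * c) ^ m) / η := by positivity
  rw [← hρ, ← hX]
  have hρm : ((m + 1 : ℕ) : ℝ) * ρ = 1 := by
    rw [hρ]
    push_cast
    field_simp
  calc (Q ^ m * (A.card * I.card * (A.card + I.card * c) ^ m) / η) ^ ρ
      ≤ ((Q * c * X) ^ (m + 1) * N * η⁻¹) ^ ρ := Real.rpow_le_rpow h0 hstep hρ0.le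
    _ = Q * c * X * (N : ℝ) ^ ρ * η ^ (-ρ) := by
        rw [Real.mul_rpow (by positivity) (by positivity), Real.mul_rpow (by positivity) (by positivity),
          ← Real.rpow_natCast (Q * c * X) (m + 1), ← Real.rpow_mul hQcX.le, hρm, Real.rpow_one,
          Real.inv_rpow hη.le, Real.rpow_neg hη.le]
    _ ≤ (K₁ * (B : ℝ) ^ (m + 2) * (N : ℝ) ^ (ε / 2) * (1 + N / Λ)) * (3 ^ m * (B : ℝ) ^ m) * X *
          (N : ℝ) ^ (ε / 2) * η ^ (-ε) := by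
        have e1 : (N : ℝ) ^ ρ ≤ (N : ℝ) ^ (ε / 2) := Real.rpow_le_rpow_of_exponent_le hNr hρε
        have e2 : η ^ (-ρ) ≤ η ^ (-ε) :=
          Real.rpow_le_rpow_of_exponent_ge hη hη1 (by linarith)
        have e3 : 0 ≤ η ^ (-ρ) := Real.rpow_nonneg hη.le _
        gcongr
    _ = K₁ * 3 ^ m * (B : ℝ) ^ (m + 2 + m) * (N : ℝ) ^ ε * η ^ (-ε) * (1 + N / Λ) * X := by
        have e4 : (N : ℝ) ^ ε = (N : ℝ) ^ (ε / 2) * (N : ℝ) ^ (ε / 2) := by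
          rw [← Real.rpow_add (by linarith)]
          congr 1
          ring
        rw [e4, pow_add (B : ℝ) (m + 2) m]
        ring

end Pool.Agent.K7.H49.ML
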