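import Pool.Agent.K7.H49.ML.Stm2
import Pool.Agent.K7.H60.ML_SEP

/-!
# Project ML, job SEPK: sums over separated points (the proof of helper60's `stSep`)
-/

set_option autoImplicit false

open Finset

namespace Pool.Agent.K7.H49.ML

open Pool.Agent.K7.H60.ML (g_anti sum_g g_nonneg)

theorem stSepK : StSepK := by
  classical
  intro ι S r z Λ σ K hΛ hσ hK hsep hz
  -- the code of a number
  have hfl : ∀ p ∈ S, ∀ l, ⌊|z p l| / σ⌋₊ < K + 1 := by
    intro p hp l
    rw [Nat.lt_succ_iff]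
    apply Nat.floor_le_of_le
    rw [div_le_iff₀ hσ]
    exact hz p hp l
  let c : ι → Fin r → Bool × Fin (K + 1) := fun p l =>
    (decide (z p l < 0), Fin.ofNat (K + 1) ⌊|z p l| / σ⌋₊)
  have hc2 : ∀ p ∈ S, ∀ l, ((c p l).2 : ℕ) = ⌊|z p l| / σ⌋₊ := by
    intro p hp l
    change ⌊|z p l| / σ⌋₊ % (K + 1) = _
    exact Nat.mod_eq_of_lt (hfl p hp l)
  have hinj : Set.InjOn c S := by
    intro p hp q hq hpq
    by_contra hne
    obtain ⟨l, hl⟩ := hsep p hp q hq hne
    have h1 := congrFun hpq l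
    have h2 : ⌊|z p l| / σ⌋₊ = ⌊|z q l| / σ⌋₊ := by
      rw [← hc2 p hp l, ← hc2 q hq l, h1]
    have h3 : (z p l < 0) ↔ (z q l < 0) := by
      have := congrArg Prod.fst h1
      simpa [c] using this
    have h4 := Nat.floor_le (show 0 ≤ |z p l| / σ by positivity)
    have h5 := Nat.lt_floor_add_one (|z p l| / σ)
    have h6 := Nat.floor_le (show 0 ≤ |z q l| / σ by positivity)
    have h7 := Nat.lt_floor_add_one (|z q l| / σ)
    rw [← h2] at h6 h7
    generalize ⌊|z p l| / σ⌋₊ = m at h4 h5 h6 h7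
    rw [le_div_iff₀ hσ] at h4 h6
    rw [div_lt_iff₀ hσ] at h5 h7
    have h8 : |z p l - z q l| < σ := by
      by_cases h0 : z p l < 0
      · have h0' := h3.1 h0
        rw [abs_of_neg h0] at h4 h5
        rw [abs_of_neg h0'] at h6 h7
        rw [abs_lt]; constructor <;> nlinarith
      · have h0' : ¬ z q l < 0 := fun h => h0 (h3.2 h)
        rw [abs_of_nonneg (not_lt.1 h0)] at h4 h5
        rw [abs_of_nonneg (not_lt.1 h0')] at h6 h7
        rw [abs_lt]; constructor <;> nlinarith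
    linarith
  set F : (Fin r → Bool × Fin (K + 1)) → ℝ := fun x => ∏ l, g Λ ((((x l).2 : ℕ) : ℝ) * σ) with hF
  have hF0 : ∀ x, 0 ≤ F x := fun x => Finset.prod_nonneg fun l _ => g_nonneg _ _
  calc ∑ p ∈ S, ∏ l, g Λ (z p l) ≤ ∑ p ∈ S, F (c p) := by
        refine Finset.sum_le_sum fun p hp => ?_
        refine Finset.prod_le_prod (fun l _ => g_nonneg _ _) fun l _ => ?_
        apply g_anti hΛ
        rw [hc2 p hp l]
        have h4 := Nat.floor_le (show 0 ≤ |z p l| / σ by positivity)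
        rw [le_div_iff₀ hσ] at h4
        rwa [abs_of_nonneg (by positivity)]
    _ = ∑ x ∈ S.image c, F x := (Finset.sum_image hinj).symm
    _ ≤ ∑ x, F x := Finset.sum_le_univ_sum_of_nonneg hF0
    _ = ∏ _l : Fin r, ∑ y : Bool × Fin (K + 1), g Λ (((y.2 : ℕ) : ℝ) * σ) := by
        rw [Finset.prod_univ_sum, Fintype.piFinset_univ]
    _ = (∑ y : Bool × Fin (K + 1), g Λ (((y.2 : ℕ) : ℝ) * σ)) ^ r := by
        rw [Finset.prod_const, Finset.card_univ, Fintype.card_fin]
    _ ≤ (2 * (1 + 2 / (Λ * σ) * (1 + Real.log K))) ^ r := by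
        apply pow_le_pow_left₀ (Finset.sum_nonneg fun _ _ => g_nonneg _ _)
        rw [Fintype.sum_prod_type]
        simp only [Finset.sum_const, Finset.card_univ, Fintype.card_bool, nsmul_eq_mul]
        push_cast
        exact mul_le_mul_of_nonneg_left (sum_g Λ σ K hΛ hσ) (by norm_num)

end Pool.Agent.K7.H49.ML
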