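import Pool.Agent.K7.H49.ML.Fin3
import Pool.Agent.K7.H49.ML.SepK
import Pool.Agent.K7.H21.ML_NSUMH
import Pool.Agent.K7.H60.ML_ADJ
import Pool.Agent.K7.H60.ML_KER
import Pool.Agent.K7.H63.ML_MINOR
import Pool.Agent.K7.H77.ML_COUNT
import Pool.Agent.K7.H77.ML_SEPH

set_option autoImplicit false

/-!
# Montgomery's large value conjecture for sets of integers in generic integral linear images

`A` is an arbitrary finite set of integer vectors in any dimension `d`, whose coordinates differ by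
at most `B`, and `s` are arbitrary shifts. For all INTEGER vectors `x` in the box `(L, 2L]^d`, up to
a proportion `η`, the large sieve inequality of the quality of Montgomery's conjecture
holds at the points `x·a + s_a`, `a ∈ A`, for ALL coefficients:

`∑_{a ∈ A} |D(x·a + s_a)|² ≤ K B^κ N^ε η^{-ε} (1 + N/L) (|I| + |A|) ∑_{n ∈ I} |b_n|²`.

Hence, for `L ≥ N`, the bound `#W ≤ C N^{2-2σ+ε}` of the conjecture holds for all sets `W` of
integers `x·a + s_a` at which `|D| > N^σ`, if `|A| ≤ N`.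

Proof: the mean over the integral `x` of the trace of the `k`-th power of the Gram matrix is a sum over
`(n_j) ∈ I^k`, `(a_j) ∈ A^k` of products of `d` periodic kernels at the frequencies
`∑_j (a_{j-1} - a_j) log n_j`. If the `a_j - a_0` have rank `r`, then `r` of the frequencies and `r`
of the `n_j` are connected by an integral matrix of nonzero determinant at most `r! B^r`, so that for
fixed other `n_j` the `r` frequencies are separated by `1/(r! B^r N)`, and they have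
`O((B log N)^r)` periods.
-/

namespace Pool.Agent.K7.H49.ML.Integral

open Finset

/-- The Dirichlet polynomial `∑_{n ∈ I} b_n n^{it}`. -/
noncomputable def D (I : Finset ℕ) (b : ℕ → ℂ) (t : ℝ) : ℂ :=
  ∑ n ∈ I, b n * Complex.exp (Complex.I * (t : ℂ) * (Real.log (n : ℝ) : ℂ))

theorem general (ε : ℝ) (hε : 0 < ε) : ∃ (K : ℝ) (κ : ℕ), 1 ≤ K ∧
    ∀ N : ℕ, 1 ≤ N → ∀ I : Finset ℕ, (∀ n ∈ I, 1 ≤ n ∧ n ≤ N) → ∀ (d B : ℕ), 1 ≤ B →
      ∀ (A : Finset (Fin d → ℤ)) (s : (Fin d → ℤ) → ℝ) (L : ℕ) (η : ℝ),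
        (∀ a ∈ A, ∀ a' ∈ A, ∀ i, |a i - a' i| ≤ B) → 1 ≤ L → 0 < η → η ≤ 1 →
        ∃ E : Finset (Fin d → ℕ), (E.card : ℝ) ≤ η * (L : ℝ) ^ d ∧
          ∀ x : Fin d → ℕ, (∀ i, L < x i ∧ x i ≤ 2 * L) → x ∉ E → ∀ b : ℕ → ℂ,
            ∑ a ∈ A, ‖D I b ((∑ i, (a i : ℝ) * (x i : ℝ)) + s a)‖ ^ 2 ≤
              K * (B : ℝ) ^ κ * (N : ℝ) ^ ε * η ^ (-ε) * (1 + N / L) * (I.card + A.card) *
                ∑ n ∈ I, ‖b n‖ ^ 2 :=
  Pool.Agent.K7.H49.ML.clean3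
    (Pool.Agent.K7.H21.ML.nsumh
      (Pool.Agent.K7.H77.MLSEPH.seph Pool.Agent.K7.H60.MLKER.t Pool.Agent.K7.H49.ML.stSepK)
      Pool.Agent.K7.H63.MLMINOR.stMinor Pool.Agent.K7.H60.ML.stAdj)
    Pool.Agent.K7.H77.MLCOUNT.stCount ε hε

theorem result :
    (∀ ε : ℝ, 0 < ε → ∃ (K : ℝ) (κ : ℕ), 1 ≤ K ∧
      ∀ N : ℕ, 1 ≤ N → ∀ I : Finset ℕ, (∀ n ∈ I, 1 ≤ n ∧ n ≤ N) → ∀ (d B : ℕ), 1 ≤ B →
        ∀ (A : Finset (Fin d → ℤ)) (s : (Fin d → ℤ) → ℝ) (L : ℕ) (η : ℝ),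
          (∀ a ∈ A, ∀ a' ∈ A, ∀ i, |a i - a' i| ≤ B) → 1 ≤ L → 0 < η → η ≤ 1 →
          ∃ E : Finset (Fin d → ℕ), (E.card : ℝ) ≤ η * (L : ℝ) ^ d ∧
            ∀ x : Fin d → ℕ, (∀ i, L < x i ∧ x i ≤ 2 * L) → x ∉ E → ∀ b : ℕ → ℂ,
              ∑ a ∈ A, ‖D I b ((∑ i, (a i : ℝ) * (x i : ℝ)) + s a)‖ ^ 2 ≤
                K * (B : ℝ) ^ κ * (N : ℝ) ^ ε * η ^ (-ε) * (1 + N / L) * (I.card + A.card) *
                  ∑ n ∈ I, ‖b n‖ ^ 2) ∧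
    (∀ ε C : ℝ, 0 < ε → 0 ≤ C → ∃ (K : ℝ) (κ : ℕ), ∀ N d B L : ℕ, 1 ≤ N → 1 ≤ B → N ≤ L →
      ∀ (A : Finset (Fin d → ℤ)) (s : (Fin d → ℤ) → ℤ),
        (∀ a ∈ A, ∀ a' ∈ A, ∀ i, |a i - a' i| ≤ B) →
        ∃ E : Finset (Fin d → ℕ), (E.card : ℝ) ≤ (N : ℝ) ^ (-C) * (L : ℝ) ^ d ∧
          ∀ x : Fin d → ℕ, (∀ i, L < x i ∧ x i ≤ 2 * L) → x ∉ E →
            ∀ b : ℕ → ℂ, (∀ n, ‖b n‖ ≤ 1) → ∀ (σ : ℝ) (W : Finset ℤ),
              (∀ w ∈ W, (∃ a ∈ A, w = (∑ i, a i * (x i : ℤ)) + s a) ∧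
                (N : ℝ) ^ σ < ‖D (Finset.Icc N (2 * N)) b (w : ℝ)‖) →
              (W.card : ℝ) ≤ K * (B : ℝ) ^ κ * (N : ℝ) ^ (1 - 2 * σ + ε) * (N + A.card)) := by
  refine ⟨general, ?_⟩
  intro ε C hε hC
  obtain ⟨δ, hδ⟩ : ∃ δ : ℝ, δ = ε / (1 + C) := ⟨_, rfl⟩
  have hC1 : 0 < 1 + C := by linarith
  have hδ0 : 0 < δ := by rw [hδ]; positivity
  have hδε : δ + C * δ = ε := by rw [hδ]; field_simp
  obtain ⟨K, κ, hK, hmain⟩ := general δ hδ0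
  refine ⟨12 * 2 ^ δ * K, κ, fun N d B L hN hB hL A s hA => ?_⟩
  have hNr : (1 : ℝ) ≤ N := by exact_mod_cast hN
  have hN0 : (0 : ℝ) < N := by linarith
  have hBr : (1 : ℝ) ≤ B := by exact_mod_cast hB
  have hLN : (N : ℝ) ≤ L := by exact_mod_cast hL
  have hL0 : (0 : ℝ) < L := by linarith
  have hη1 : (N : ℝ) ^ (-C) ≤ 1 := Real.rpow_le_one_of_one_le_of_nonpos hNr (by linarith)
  obtain ⟨E, hE2, hE3⟩ := hmain (2 * N) (by omega) (Finset.Icc N (2 * N))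
    (fun n hn => by rw [mem_Icc] at hn; omega) d B hB A
    (fun a => (s a : ℝ)) L ((N : ℝ) ^ (-C)) hA (by omega)
    (Real.rpow_pos_of_pos (by linarith) _) hη1
  refine ⟨E, hE2, fun x hx hxE b hb σ W hW => ?_⟩
  have h3 := hE3 x hx hxE b
  obtain ⟨V, hV⟩ : ∃ V : ℝ, V = (N : ℝ) ^ (2 * σ) := ⟨_, rfl⟩
  have hV0 : 0 < V := by rw [hV]; exact Real.rpow_pos_of_pos hN0 _
  have hVσ : ((N : ℝ) ^ σ) ^ 2 = V := by
    rw [hV, ← Real.rpow_natCast, ← Real.rpow_mul hN0.le]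
    congr 1
    push_cast
    ring
  -- the number of large values
  have hcount : (W.card : ℝ) * V ≤
      ∑ a ∈ A, ‖D (Finset.Icc N (2 * N)) b ((∑ i, (a i : ℝ) * (x i : ℝ)) + (s a : ℝ))‖ ^ 2 := by
    classical
    have hch : ∀ w : ℤ, ∃ a : Fin d → ℤ, w ∈ W → a ∈ A ∧ w = (∑ i, a i * (x i : ℤ)) + s a := by
      intro w
      by_cases hw : w ∈ W
      · obtain ⟨⟨a, ha, haw⟩, _⟩ := hW w hw
        exact ⟨a, fun _ => ⟨ha, haw⟩⟩
      · exact ⟨0, fun h => absurd h hw⟩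
    choose φ hφ using hch
    have hinj : Set.InjOn φ W := by
      intro w hw w' hw' h
      rw [(hφ w hw).2, (hφ w' hw').2, h]
    calc (W.card : ℝ) * V = ∑ w ∈ W, V := by rw [sum_const, nsmul_eq_mul]
      _ ≤ ∑ w ∈ W, ‖D (Finset.Icc N (2 * N)) b
            ((∑ i, (φ w i : ℝ) * (x i : ℝ)) + (s (φ w) : ℝ))‖ ^ 2 := by
          apply sum_le_sum
          intro w hw
          have e1 : ((∑ i, (φ w i : ℝ) * (x i : ℝ)) + (s (φ w) : ℝ)) = (w : ℝ) := by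
            conv_rhs => rw [(hφ w hw).2]
            push_cast
            rfl
          rw [e1, ← hVσ]
          exact pow_le_pow_left₀ (Real.rpow_nonneg hN0.le _) (hW w hw).2.le 2
      _ = ∑ a ∈ W.image φ, ‖D (Finset.Icc N (2 * N)) b
            ((∑ i, (a i : ℝ) * (x i : ℝ)) + (s a : ℝ))‖ ^ 2 :=
          (sum_image (f := fun a : Fin d → ℤ => ‖D (Finset.Icc N (2 * N)) b
            ((∑ i, (a i : ℝ) * (x i : ℝ)) + (s a : ℝ))‖ ^ 2) hinj).symm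
      _ ≤ _ := by
          apply sum_le_sum_of_subset_of_nonneg
          · intro a ha
            obtain ⟨w, hw, rfl⟩ := mem_image.1 ha
            exact (hφ w hw).1
          · intro a _ _
            positivity
  have h5 : ∑ n ∈ Finset.Icc N (2 * N), ‖b n‖ ^ 2 ≤ 2 * N := by
    calc ∑ n ∈ Finset.Icc N (2 * N), ‖b n‖ ^ 2 ≤ ∑ n ∈ Finset.Icc N (2 * N), (1 : ℝ) :=
          sum_le_sum fun n _ => pow_le_one₀ (norm_nonneg _) (hb n)
      _ = ((2 * N + 1 - N : ℕ) : ℝ) := by simp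
      _ ≤ 2 * N := by
          have : 2 * N + 1 - N ≤ 2 * N := by omega
          exact_mod_cast this
  have h5' : (((Finset.Icc N (2 * N)).card : ℕ) : ℝ) ≤ 2 * N := by
    rw [Nat.card_Icc]
    have : 2 * N + 1 - N ≤ 2 * N := by omega
    exact_mod_cast this
  have h6 : 1 + ((2 * N : ℕ) : ℝ) / L ≤ 3 := by
    have : ((2 * N : ℕ) : ℝ) / L ≤ 2 := by
      rw [div_le_iff₀ hL0]
      push_cast
      linarith
    linarith
  have h7 : ((N : ℝ) ^ (-C)) ^ (-δ) = (N : ℝ) ^ (C * δ) := by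
    rw [← Real.rpow_mul (by linarith)]
    congr 1
    ring
  have h8 : ((2 * N : ℕ) : ℝ) ^ δ = 2 ^ δ * (N : ℝ) ^ δ := by
    push_cast
    exact Real.mul_rpow (by norm_num) hN0.le
  have h9 : (N : ℝ) ^ δ * (N : ℝ) ^ (C * δ) = (N : ℝ) ^ ε := by
    rw [← Real.rpow_add (by linarith), hδε]
  rw [h7, h8] at h3
  have h10 : 0 ≤ ∑ n ∈ Finset.Icc N (2 * N), ‖b n‖ ^ 2 := sum_nonneg fun _ _ => by positivity
  have h11 : (W.card : ℝ) * V ≤ 12 * 2 ^ δ * K * (B : ℝ) ^ κ * (N : ℝ) ^ ε * (N + A.card) * N := by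
    refine hcount.trans (h3.trans ?_)
    calc K * (B : ℝ) ^ κ * (2 ^ δ * (N : ℝ) ^ δ) * (N : ℝ) ^ (C * δ) *
          (1 + ((2 * N : ℕ) : ℝ) / L) * (((Finset.Icc N (2 * N)).card : ℕ) + A.card) *
          ∑ n ∈ Finset.Icc N (2 * N), ‖b n‖ ^ 2
        ≤ K * (B : ℝ) ^ κ * (2 ^ δ * (N : ℝ) ^ δ) * (N : ℝ) ^ (C * δ) * 3 *
          (2 * N + 2 * A.card) * (2 * N) := by
          have h12 : (((Finset.Icc N (2 * N)).card : ℕ) : ℝ) + A.card ≤ 2 * N + 2 * A.card := by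
            have : (0 : ℝ) ≤ A.card := by positivity
            linarith
          have h13 : 0 ≤ K * (B : ℝ) ^ κ * (2 ^ δ * (N : ℝ) ^ δ) * (N : ℝ) ^ (C * δ) := by positivity
          gcongr
      _ = 12 * 2 ^ δ * K * (B : ℝ) ^ κ * ((N : ℝ) ^ δ * (N : ℝ) ^ (C * δ)) * (N + A.card) * N := by
          ring
      _ = _ := by rw [h9]
  have h14 : (N : ℝ) ^ (1 - 2 * σ + ε) * V = (N : ℝ) ^ ε * N := by
    rw [hV, ← Real.rpow_add hN0]
    have : 1 - 2 * σ + ε + 2 * σ = ε + 1 := by ring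
    rw [this, Real.rpow_add hN0, Real.rpow_one]
  refine le_of_mul_le_mul_right (h11.trans (le_of_eq ?_)) hV0
  calc 12 * 2 ^ δ * K * (B : ℝ) ^ κ * (N : ℝ) ^ ε * (N + A.card) * N
      = 12 * 2 ^ δ * K * (B : ℝ) ^ κ * ((N : ℝ) ^ ε * N) * (N + A.card) := by ring
    _ = 12 * 2 ^ δ * K * (B : ℝ) ^ κ * ((N : ℝ) ^ (1 - 2 * σ + ε) * V) * (N + A.card) := by
        rw [h14]
    _ = _ := by ring

end Pool.Agent.K7.H49.ML.Integral
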