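import Pool.Agent.K7.H49.ML.Box

set_option autoImplicit false

open Finset MeasureTheory

namespace Pool.Agent.K7.H49.ML

variable {d : ℕ}

theorem box_compact (Λ : ℝ) : IsCompact (box d Λ) := isCompact_univ_pi fun _ => isCompact_Icc

/-- the integral of a sum of exponentials -/
theorem int_sum {τ : Type} (T : Finset τ) (Λ : ℝ) (hΛ : 0 < Λ) (θ : τ → Fin d → ℝ) (c : τ → ℝ) :
    ‖∫ x in box d Λ, ∑ q ∈ T, Complex.exp ((((∑ i, θ q i * x i) + c q : ℝ) : ℂ) * Complex.I)‖ ≤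
      Λ ^ d * ∑ q ∈ T, ∏ i, g Λ (θ q i) := by
  have hint : ∀ q ∈ T, IntegrableOn (fun x : Fin d → ℝ =>
      Complex.exp ((((∑ i, θ q i * x i) + c q : ℝ) : ℂ) * Complex.I)) (box d Λ) volume := by
    intro q _
    have hc : Continuous (fun x : Fin d → ℝ =>
      Complex.exp ((((∑ i, θ q i * x i) + c q : ℝ) : ℂ) * Complex.I)) := by fun_prop
    exact hc.continuousOn.integrableOn_compact (box_compact Λ)
  rw [integral_finsetSum _ hint, mul_sum]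
  exact (norm_sum_le _ _).trans (sum_le_sum fun q _ => stBox d Λ (θ q) (c q) hΛ)

theorem four_sum (I : Finset ℕ) (f₁ f₂ f₃ f₄ : ℕ → ℂ) :
    (∑ n ∈ I, f₁ n) * (∑ n ∈ I, f₂ n) * ((∑ n ∈ I, f₃ n) * (∑ n ∈ I, f₄ n)) =
      ∑ q ∈ I ×ˢ I ×ˢ I ×ˢ I, f₁ q.1 * f₂ q.2.1 * (f₃ q.2.2.1 * f₄ q.2.2.2) := by
  simp only [sum_product]
  rw [sum_mul_sum, sum_mul_sum, sum_mul]
  apply sum_congr rfl
  intro n₁ _
  rw [sum_mul]
  apply sum_congr rfl
  intro n₂ _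
  rw [mul_sum]
  apply sum_congr rfl
  intro n₃ _
  rw [mul_sum]

/-- the kernel -/
noncomputable def KK (I : Finset ℕ) (s : (Fin d → ℤ) → ℝ) (a b : Fin d → ℤ) (x : Fin d → ℝ) : ℂ :=
  ∑ n ∈ I, Complex.exp ((((pt s a x - pt s b x) * Real.log (n : ℝ) : ℝ) : ℂ) * Complex.I)

theorem row_mul (s : (Fin d → ℤ) → ℝ) (a b : Fin d → ℤ) (x : Fin d → ℝ) (n : ℕ) :
    row s x a n * (starRingEnd ℂ) (row s x b n) =
      Complex.exp ((((pt s a x - pt s b x) * Real.log (n : ℝ) : ℝ) : ℂ) * Complex.I) := by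
  unfold row
  rw [← Complex.exp_conj, ← Complex.exp_add]
  congr 1
  rw [map_mul, Complex.conj_ofReal, Complex.conj_I]
  push_cast
  ring

theorem M_eq (I : Finset ℕ) (s : (Fin d → ℤ) → ℝ) (a b : Fin d → ℤ) (x : Fin d → ℝ) (h : a ≠ b) :
    M I (row s x) a b = KK I s a b x := by
  unfold M KK
  rw [if_neg h]
  exact sum_congr rfl fun n _ => row_mul s a b x n

theorem M_self (I : Finset ℕ) (s : (Fin d → ℤ) → ℝ) (a : Fin d → ℤ) (x : Fin d → ℝ) :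
    M I (row s x) a a = 0 := by
  unfold M
  rw [if_pos rfl]

theorem M_conj (I : Finset ℕ) (s : (Fin d → ℤ) → ℝ) (a b : Fin d → ℤ) (x : Fin d → ℝ) :
    (starRingEnd ℂ) (M I (row s x) a b) = M I (row s x) b a := by
  unfold M
  by_cases h : a = b
  · rw [if_pos h, if_pos h.symm, map_zero]
  · rw [if_neg h, if_neg (Ne.symm h), map_sum]
    apply sum_congr rfl
    intro n _
    rw [map_mul, Complex.conj_conj, mul_comm]

/-- the product of four kernels -/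
theorem prod_four (I : Finset ℕ) (s : (Fin d → ℤ) → ℝ) (a b c e : Fin d → ℤ) (x : Fin d → ℝ) :
    KK I s a b x * KK I s b c x * (KK I s c e x * KK I s e a x) =
      ∑ q ∈ I ×ˢ I ×ˢ I ×ˢ I, Complex.exp ((((∑ i, th a b c e q.1 q.2.1 q.2.2.1 q.2.2.2 i * x i) +
        (s a * (Real.log q.1 - Real.log q.2.2.2) + s b * (Real.log q.2.1 - Real.log q.1) +
          s c * (Real.log q.2.2.1 - Real.log q.2.1) +
          s e * (Real.log q.2.2.2 - Real.log q.2.2.1)) : ℝ) : ℂ) * Complex.I) := by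
  unfold KK
  rw [four_sum]
  apply sum_congr rfl
  intro q _
  rw [← Complex.exp_add, ← Complex.exp_add, ← Complex.exp_add]
  congr 1
  rw [← add_mul, ← add_mul, ← add_mul]
  congr 1
  rw [← Complex.ofReal_add, ← Complex.ofReal_add, ← Complex.ofReal_add]
  congr 1
  have h : ∑ i, th a b c e q.1 q.2.1 q.2.2.1 q.2.2.2 i * x i =
      (∑ i, (a i : ℝ) * x i) * (Real.log q.1 - Real.log q.2.2.2) +
      (∑ i, (b i : ℝ) * x i) * (Real.log q.2.1 - Real.log q.1) +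
      (∑ i, (c i : ℝ) * x i) * (Real.log q.2.2.1 - Real.log q.2.1) +
      (∑ i, (e i : ℝ) * x i) * (Real.log q.2.2.2 - Real.log q.2.2.1) := by
    rw [sum_mul, sum_mul, sum_mul, sum_mul, ← sum_add_distrib, ← sum_add_distrib, ← sum_add_distrib]
    apply sum_congr rfl
    intro i _
    unfold th
    ring
  rw [h]
  unfold pt
  ring

theorem prod_abs (I : Finset ℕ) (s : (Fin d → ℤ) → ℝ) (a b : Fin d → ℤ) (x : Fin d → ℝ) :
    ((‖KK I s a b x‖ ^ 4 : ℝ) : ℂ) =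
      ∑ q ∈ I ×ˢ I ×ˢ I ×ˢ I, Complex.exp ((((∑ i, (((a i : ℝ) - b i) * (Real.log q.1 -
        Real.log q.2.1 + Real.log q.2.2.1 - Real.log q.2.2.2)) * x i) +
        (s a - s b) * (Real.log q.1 -
        Real.log q.2.1 + Real.log q.2.2.1 - Real.log q.2.2.2) : ℝ) : ℂ) * Complex.I) := by
  have h1 : ((‖KK I s a b x‖ ^ 4 : ℝ) : ℂ) =
      KK I s a b x * (starRingEnd ℂ) (KK I s a b x) * (KK I s a b x * (starRingEnd ℂ) (KK I s a b x)) := by
    rw [Complex.mul_conj, Complex.normSq_eq_norm_sq]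
    push_cast
    ring
  have h2 : (starRingEnd ℂ) (KK I s a b x) = ∑ n ∈ I,
      Complex.exp ((((-((pt s a x - pt s b x) * Real.log (n : ℝ)) : ℝ) : ℝ) : ℂ) * Complex.I) := by
    unfold KK
    rw [map_sum]
    apply sum_congr rfl
    intro n _
    rw [← Complex.exp_conj]
    congr 1
    rw [map_mul, Complex.conj_ofReal, Complex.conj_I]
    push_cast
    ring
  rw [h1, h2]
  unfold KK
  rw [four_sum]
  apply sum_congr rfl
  intro q _
  rw [← Complex.exp_add, ← Complex.exp_add, ← Complex.exp_add]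
  congr 1
  rw [← add_mul, ← add_mul, ← add_mul]
  congr 1
  rw [← Complex.ofReal_add, ← Complex.ofReal_add, ← Complex.ofReal_add]
  congr 1
  have h : ∑ i, (((a i : ℝ) - b i) * (Real.log q.1 -
        Real.log q.2.1 + Real.log q.2.2.1 - Real.log q.2.2.2)) * x i =
      ((∑ i, (a i : ℝ) * x i) - (∑ i, (b i : ℝ) * x i)) * (Real.log q.1 -
        Real.log q.2.1 + Real.log q.2.2.1 - Real.log q.2.2.2) := by
    rw [← sum_sub_distrib, sum_mul]
    apply sum_congr rfl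
    intro i _
    ring
  rw [h]
  unfold pt
  ring

theorem KK_cont (I : Finset ℕ) (s : (Fin d → ℤ) → ℝ) (a b : Fin d → ℤ) :
    Continuous (KK I s a b) := by
  unfold KK pt
  fun_prop

theorem prod_g_le (Λ : ℝ) (θ : Fin d → ℝ) (J : Finset (Fin d)) :
    ∏ i, g Λ (θ i) ≤ ∏ i ∈ J, g Λ (θ i) := by
  classical
  rw [← prod_sdiff (subset_univ J)]
  have h1 : ∏ i ∈ univ \ J, g Λ (θ i) ≤ 1 := prod_le_one (fun i _ => g_nonneg _ _) fun i _ => g_le_one _ _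
  have h2 : 0 ≤ ∏ i ∈ J, g Λ (θ i) := prod_nonneg fun i _ => g_nonneg _ _
  nlinarith

/-- independent quadruples -/
theorem mean_indep (hI : StInd) {N B : ℕ} (hN : 1 ≤ N) (hB : 1 ≤ B) {I : Finset ℕ}
    (hIN : ∀ n ∈ I, 1 ≤ n ∧ n ≤ N) (a b c e : Fin d → ℤ)
    (hab : ∀ i, |a i - e i| ≤ B ∧ |b i - e i| ≤ B ∧ |c i - e i| ≤ B) (hF : ¬ Flat a b c e)
    (s : (Fin d → ℤ) → ℝ) {Λ : ℝ} (hΛ : 0 < Λ) :
    ‖∫ x in box d Λ, KK I s a b x * KK I s b c x * (KK I s c e x * KK I s e a x)‖ ≤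
      Λ ^ d * (cI N B Λ * I.card) := by
  classical
  unfold Flat at hF
  push Not at hF
  obtain ⟨i, j, k, hdet⟩ := hF
  have hij : i ≠ j := by
    rintro rfl
    apply hdet
    unfold det3
    ring
  have hik : i ≠ k := by
    rintro rfl
    apply hdet
    unfold det3
    ring
  have hjk : j ≠ k := by
    rintro rfl
    apply hdet
    unfold det3
    ring
  have h1 : ∀ x : Fin d → ℝ, KK I s a b x * KK I s b c x * (KK I s c e x * KK I s e a x) = _ :=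
    fun x => prod_four I s a b c e x
  simp only [h1]
  refine (int_sum (I ×ˢ I ×ˢ I ×ˢ I) Λ hΛ
    (fun q => th a b c e q.1 q.2.1 q.2.2.1 q.2.2.2)
    (fun q => s a * (Real.log q.1 - Real.log q.2.2.2) + s b * (Real.log q.2.1 - Real.log q.1) +
          s c * (Real.log q.2.2.1 - Real.log q.2.1) +
          s e * (Real.log q.2.2.2 - Real.log q.2.2.1))).trans ?_
  apply mul_le_mul_of_nonneg_left _ (by positivity)
  have h2 : ∀ q : ℕ × ℕ × ℕ × ℕ, ∏ l, g Λ (th a b c e q.1 q.2.1 q.2.2.1 q.2.2.2 l) ≤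
      g Λ (th a b c e q.1 q.2.1 q.2.2.1 q.2.2.2 i) *
            g Λ (th a b c e q.1 q.2.1 q.2.2.1 q.2.2.2 j) *
            g Λ (th a b c e q.1 q.2.1 q.2.2.1 q.2.2.2 k) := by
    intro q
    refine (prod_g_le Λ (th a b c e q.1 q.2.1 q.2.2.1 q.2.2.2) {i, j, k}).trans (le_of_eq ?_)
    rw [prod_insert (by simp [hij, hik]), prod_insert (by simp [hjk]), prod_singleton]
    ring
  calc ∑ q ∈ I ×ˢ I ×ˢ I ×ˢ I, ∏ l, g Λ (th a b c e q.1 q.2.1 q.2.2.1 q.2.2.2 l)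
      ≤ ∑ q ∈ I ×ˢ I ×ˢ I ×ˢ I, g Λ (th a b c e q.1 q.2.1 q.2.2.1 q.2.2.2 i) *
            g Λ (th a b c e q.1 q.2.1 q.2.2.1 q.2.2.2 j) *
            g Λ (th a b c e q.1 q.2.1 q.2.2.1 q.2.2.2 k) := sum_le_sum fun q _ => h2 q
    _ = ∑ n₄ ∈ I, ∑ n₁ ∈ I, ∑ n₂ ∈ I, ∑ n₃ ∈ I, g Λ (th a b c e n₁ n₂ n₃ n₄ i) *
            g Λ (th a b c e n₁ n₂ n₃ n₄ j) * g Λ (th a b c e n₁ n₂ n₃ n₄ k) := by
        simp only [sum_product]
        have e1 : ∀ n₁ n₂ : ℕ, ∑ n₃ ∈ I, ∑ n₄ ∈ I, g Λ (th a b c e n₁ n₂ n₃ n₄ i) *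
            g Λ (th a b c e n₁ n₂ n₃ n₄ j) * g Λ (th a b c e n₁ n₂ n₃ n₄ k) =
            ∑ n₄ ∈ I, ∑ n₃ ∈ I, g Λ (th a b c e n₁ n₂ n₃ n₄ i) *
            g Λ (th a b c e n₁ n₂ n₃ n₄ j) * g Λ (th a b c e n₁ n₂ n₃ n₄ k) :=
          fun n₁ n₂ => sum_comm
        simp only [e1]
        have e2 : ∀ n₁ : ℕ, ∑ n₂ ∈ I, ∑ n₄ ∈ I, ∑ n₃ ∈ I, g Λ (th a b c e n₁ n₂ n₃ n₄ i) *
            g Λ (th a b c e n₁ n₂ n₃ n₄ j) * g Λ (th a b c e n₁ n₂ n₃ n₄ k) =
            ∑ n₄ ∈ I, ∑ n₂ ∈ I, ∑ n₃ ∈ I, g Λ (th a b c e n₁ n₂ n₃ n₄ i) *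
            g Λ (th a b c e n₁ n₂ n₃ n₄ j) * g Λ (th a b c e n₁ n₂ n₃ n₄ k) :=
          fun n₁ => sum_comm
        simp only [e2]
        exact sum_comm
    _ ≤ ∑ _n₄ ∈ I, cI N B Λ := sum_le_sum fun n₄ h4 => hI N B hN hB I hIN d a b c e hab i j k hdet Λ hΛ n₄ h4
    _ = cI N B Λ * I.card := by rw [sum_const, nsmul_eq_mul]; ring

/-- the fourth moment of one kernel -/
theorem mean_K {W : ℝ} {I : Finset ℕ} {Λ : ℝ} (hΛ : 0 < Λ)
    (hW : ∀ u : ℝ, 1 ≤ |u| → ∑ n₁ ∈ I, ∑ n₂ ∈ I, ∑ n₃ ∈ I, ∑ n₄ ∈ I,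
          g Λ (u * (Real.log n₁ - Real.log n₂ + Real.log n₃ - Real.log n₄)) ≤ W)
    (s : (Fin d → ℤ) → ℝ) {a b : Fin d → ℤ} (hab : a ≠ b) :
    ∫ x in box d Λ, ‖KK I s a b x‖ ^ 4 ≤ Λ ^ d * W := by
  classical
  obtain ⟨i, hi⟩ : ∃ i, a i ≠ b i := by
    by_contra h
    push Not at h
    exact hab (funext h)
  have h0 : ((∫ x in box d Λ, ‖KK I s a b x‖ ^ 4 : ℝ) : ℂ) =
      ∫ x in box d Λ, ((‖KK I s a b x‖ ^ 4 : ℝ) : ℂ) := integral_ofReal.symm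
  have h1 := int_sum (I ×ˢ I ×ˢ I ×ˢ I) Λ hΛ
    (fun (q : ℕ × ℕ × ℕ × ℕ) (i : Fin d) => ((a i : ℝ) - b i) * (Real.log q.1 -
        Real.log q.2.1 + Real.log q.2.2.1 - Real.log q.2.2.2))
    (fun q => (s a - s b) * (Real.log q.1 -
        Real.log q.2.1 + Real.log q.2.2.1 - Real.log q.2.2.2))
  have h00 : ∫ x in box d Λ, ‖KK I s a b x‖ ^ 4 ≤
      ‖∫ x in box d Λ, ((‖KK I s a b x‖ ^ 4 : ℝ) : ℂ)‖ := by
    rw [← h0, Complex.norm_real]
    exact Real.le_norm_self _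
  refine h00.trans ?_
  simp only [prod_abs]
  refine h1.trans ?_
  apply mul_le_mul_of_nonneg_left _ (by positivity)
  refine le_trans ?_ (hW ((a i : ℝ) - b i) ?_)
  · simp only [sum_product]
    apply sum_le_sum
    intro n₁ _
    apply sum_le_sum
    intro n₂ _
    apply sum_le_sum
    intro n₃ _
    apply sum_le_sum
    intro n₄ _
    refine (prod_g_le Λ (fun i : Fin d => ((a i : ℝ) - b i) * (Real.log n₁ -
        Real.log n₂ + Real.log n₃ - Real.log n₄)) {i}).trans (le_of_eq ?_)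
    rw [prod_singleton]
  · have h2 : (1 : ℤ) ≤ |a i - b i| := Int.one_le_abs (sub_ne_zero.2 hi)
    exact_mod_cast h2

theorem amgm (u v w z : ℝ) :
    u * v * (w * z) ≤ (u ^ 4 + v ^ 4 + w ^ 4 + z ^ 4) / 4 := by
  nlinarith [sq_nonneg (u * v - w * z), sq_nonneg (u ^ 2 - v ^ 2), sq_nonneg (w ^ 2 - z ^ 2),
    sq_nonneg (u * v), sq_nonneg (w * z)]

theorem mean_flat {W : ℝ} {I : Finset ℕ} {Λ : ℝ} (hΛ : 0 < Λ)
    (hW : ∀ u : ℝ, 1 ≤ |u| → ∑ n₁ ∈ I, ∑ n₂ ∈ I, ∑ n₃ ∈ I, ∑ n₄ ∈ I,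
          g Λ (u * (Real.log n₁ - Real.log n₂ + Real.log n₃ - Real.log n₄)) ≤ W)
    (s : (Fin d → ℤ) → ℝ) {a b c e : Fin d → ℤ} (hab : a ≠ b) (hbc : b ≠ c) (hce : c ≠ e) (hea : e ≠ a) :
    ‖∫ x in box d Λ, KK I s a b x * KK I s b c x * (KK I s c e x * KK I s e a x)‖ ≤ Λ ^ d * W := by
  have hi : ∀ a b : Fin d → ℤ, IntegrableOn (fun x => ‖KK I s a b x‖ ^ 4) (box d Λ) volume := by
    intro a b
    have hc : Continuous (fun x => ‖KK I s a b x‖ ^ 4) := (KK_cont I s a b).norm.pow 4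
    exact hc.continuousOn.integrableOn_compact (box_compact Λ)
  refine (norm_integral_le_integral_norm _).trans ?_
  have hc1 : Continuous (fun x => ‖KK I s a b x * KK I s b c x * (KK I s c e x * KK I s e a x)‖) :=
    (((KK_cont I s a b).mul (KK_cont I s b c)).mul ((KK_cont I s c e).mul (KK_cont I s e a))).norm
  have h1 : ∫ x in box d Λ, ‖KK I s a b x * KK I s b c x * (KK I s c e x * KK I s e a x)‖ ≤
      ∫ x in box d Λ, (‖KK I s a b x‖ ^ 4 + ‖KK I s b c x‖ ^ 4 + ‖KK I s c e x‖ ^ 4 +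
        ‖KK I s e a x‖ ^ 4) / 4 := by
    apply integral_mono (hc1.continuousOn.integrableOn_compact (box_compact Λ))
    · exact ((((hi a b).add (hi b c)).add (hi c e)).add (hi e a)).div_const 4
    · intro x
      simp only [norm_mul]
      exact amgm _ _ _ _
  refine h1.trans ?_
  have h2 : ∫ x in box d Λ, (‖KK I s a b x‖ ^ 4 + ‖KK I s b c x‖ ^ 4 + ‖KK I s c e x‖ ^ 4 +
        ‖KK I s e a x‖ ^ 4) / 4 = ((∫ x in box d Λ, ‖KK I s a b x‖ ^ 4) +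
        (∫ x in box d Λ, ‖KK I s b c x‖ ^ 4) + (∫ x in box d Λ, ‖KK I s c e x‖ ^ 4) +
        (∫ x in box d Λ, ‖KK I s e a x‖ ^ 4)) / 4 := by
    rw [integral_div]
    congr 1
    have e1 := integral_add (((hi a b).add (hi b c)).add (hi c e)) (hi e a)
    have e2 := integral_add ((hi a b).add (hi b c)) (hi c e)
    have e3 := integral_add (hi a b) (hi b c)
    simp only [Pi.add_apply] at e1 e2 e3
    rw [e1, e2, e3]
  rw [h2]
  have k1 := mean_K hΛ hW s hab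
  have k2 := mean_K hΛ hW s hbc
  have k3 := mean_K hΛ hW s hce
  have k4 := mean_K hΛ hW s hea
  linarith

theorem sq_sum_eq (I : Finset ℕ) (s : (Fin d → ℤ) → ℝ) (A : Finset (Fin d → ℤ)) (x : Fin d → ℝ) :
    ((∑ a ∈ A, ∑ c ∈ A, ‖∑ b ∈ A, M I (row s x) a b * M I (row s x) b c‖ ^ 2 : ℝ) : ℂ) =
      ∑ q ∈ A ×ˢ A ×ˢ A ×ˢ A, M I (row s x) q.1 q.2.1 * M I (row s x) q.2.1 q.2.2.1 *
        (M I (row s x) q.2.2.1 q.2.2.2 * M I (row s x) q.2.2.2 q.1) := by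
  simp only [sum_product]
  push_cast
  apply sum_congr rfl
  intro a _
  have h1 : ∀ c ∈ A, ((‖∑ b ∈ A, M I (row s x) a b * M I (row s x) b c‖ : ℂ)) ^ 2 =
      ∑ b ∈ A, ∑ e ∈ A, M I (row s x) a b * M I (row s x) b c *
        (M I (row s x) c e * M I (row s x) e a) := by
    intro c _
    rw [← Complex.ofReal_pow, ← Complex.normSq_eq_norm_sq, ← Complex.mul_conj, map_sum, sum_mul_sum]
    apply sum_congr rfl
    intro b _
    apply sum_congr rfl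
    intro e _
    rw [map_mul, M_conj, M_conj]
    ring
  rw [sum_congr rfl h1, sum_comm]

theorem cI_nonneg {N B : ℕ} (hN : 1 ≤ N) (hB : 1 ≤ B) {Λ : ℝ} (hΛ : 0 < Λ) : 0 ≤ cI N B Λ := by
  unfold cI
  have hN' : (1 : ℝ) ≤ N := by exact_mod_cast hN
  have hB' : (1 : ℝ) ≤ B := by exact_mod_cast hB
  have h1 : 0 ≤ Real.log (18 * (B : ℝ) ^ 3 * (N : ℝ) ^ 2) := by
    apply Real.log_nonneg
    have h2 : (1 : ℝ) ≤ (B : ℝ) ^ 3 := one_le_pow₀ hB'
    have h3 : (1 : ℝ) ≤ (N : ℝ) ^ 2 := one_le_pow₀ hN'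
    nlinarith
  positivity

/-- the mean of the fourth moment, with a bound `W` for the fourth moment of the kernel -/
theorem mean_W (hI : StInd) {N B : ℕ} (hN : 1 ≤ N) (hB : 1 ≤ B) {I : Finset ℕ}
    (hIN : ∀ n ∈ I, 1 ≤ n ∧ n ≤ N) (A : Finset (Fin d → ℤ))
    (hA : ∀ a ∈ A, ∀ b ∈ A, ∀ i, |a i - b i| ≤ B) (s : (Fin d → ℤ) → ℝ) {Λ W : ℝ} (hΛ : 0 < Λ)
    (hW0 : 0 ≤ W)
    (hW : ∀ u : ℝ, 1 ≤ |u| → ∑ n₁ ∈ I, ∑ n₂ ∈ I, ∑ n₃ ∈ I, ∑ n₄ ∈ I,
          g Λ (u * (Real.log n₁ - Real.log n₂ + Real.log n₃ - Real.log n₄)) ≤ W) :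
    ∫ x in box d Λ, (∑ a ∈ A, ∑ c ∈ A, ‖∑ b ∈ A, M I (row s x) a b * M I (row s x) b c‖ ^ 2) ≤
      Λ ^ d * (cI N B Λ * I.card * (A.card : ℝ) ^ 4 + W * quad A) := by
  classical
  have hcI := cI_nonneg hN hB hΛ
  have hMc : ∀ a b : Fin d → ℤ, Continuous (fun x => M I (row s x) a b) := by
    intro a b
    by_cases h : a = b
    · subst h
      simp only [M_self]
      exact continuous_const
    · have : (fun x => M I (row s x) a b) = KK I s a b := funext fun x => M_eq I s a b x h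
      rw [this]
      exact KK_cont I s a b
  have hPc : ∀ q : (Fin d → ℤ) × (Fin d → ℤ) × (Fin d → ℤ) × (Fin d → ℤ),
      Continuous (fun x => M I (row s x) q.1 q.2.1 * M I (row s x) q.2.1 q.2.2.1 *
        (M I (row s x) q.2.2.1 q.2.2.2 * M I (row s x) q.2.2.2 q.1)) := fun q =>
    ((hMc _ _).mul (hMc _ _)).mul ((hMc _ _).mul (hMc _ _))
  have h0 : ((∫ x in box d Λ, (∑ a ∈ A, ∑ c ∈ A,
        ‖∑ b ∈ A, M I (row s x) a b * M I (row s x) b c‖ ^ 2) : ℝ) : ℂ) =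
      ∫ x in box d Λ, ((∑ a ∈ A, ∑ c ∈ A,
        ‖∑ b ∈ A, M I (row s x) a b * M I (row s x) b c‖ ^ 2 : ℝ) : ℂ) := integral_ofReal.symm
  have h00 : ∫ x in box d Λ, (∑ a ∈ A, ∑ c ∈ A,
        ‖∑ b ∈ A, M I (row s x) a b * M I (row s x) b c‖ ^ 2) ≤
      ‖∫ x in box d Λ, ((∑ a ∈ A, ∑ c ∈ A,
        ‖∑ b ∈ A, M I (row s x) a b * M I (row s x) b c‖ ^ 2 : ℝ) : ℂ)‖ := by
    rw [← h0, Complex.norm_real]
    exact Real.le_norm_self _
  refine h00.trans ?_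
  simp only [sq_sum_eq]
  rw [integral_finsetSum _ (fun q _ => (hPc q).continuousOn.integrableOn_compact (box_compact Λ))]
  refine (norm_sum_le _ _).trans ?_
  have hΛd : 0 < Λ ^ d := by positivity
  have key : ∀ q ∈ A ×ˢ A ×ˢ A ×ˢ A, ‖∫ x in box d Λ, M I (row s x) q.1 q.2.1 *
      M I (row s x) q.2.1 q.2.2.1 * (M I (row s x) q.2.2.1 q.2.2.2 * M I (row s x) q.2.2.2 q.1)‖ ≤
      Λ ^ d * (cI N B Λ * I.card) +
        (if Flat q.1 q.2.1 q.2.2.1 q.2.2.2 then Λ ^ d * W else 0) := by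
    rintro ⟨a, b, c, e⟩ hq
    simp only [mem_product] at hq
    obtain ⟨ha, hb, hc, he⟩ := hq
    simp only
    have hpos1 : 0 ≤ Λ ^ d * (cI N B Λ * I.card) := by positivity
    have hpos2 : 0 ≤ (if Flat a b c e then Λ ^ d * W else 0) := by
      split_ifs
      · positivity
      · exact le_rfl
    by_cases hz : a = b ∨ b = c ∨ c = e ∨ e = a
    · have : ∀ x, M I (row s x) a b * M I (row s x) b c * (M I (row s x) c e * M I (row s x) e a) = 0 := by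
        intro x
        rcases hz with h | h | h | h
        · rw [h, M_self]; ring
        · rw [h, M_self]; ring
        · rw [h, M_self]; ring
        · rw [h, M_self]; ring
      simp only [this, integral_zero, norm_zero]
      linarith
    · push Not at hz
      obtain ⟨h1, h2, h3, h4⟩ := hz
      simp only [M_eq I s _ _ _ h1, M_eq I s _ _ _ h2, M_eq I s _ _ _ h3, M_eq I s _ _ _ h4]
      by_cases hF : Flat a b c e
      · rw [if_pos hF]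
        have := mean_flat (I := I) hΛ hW s h1 h2 h3 h4
        linarith
      · rw [if_neg hF, add_zero]
        exact mean_indep hI hN hB hIN a b c e (fun i => ⟨hA a ha e he i, hA b hb e he i,
          hA c hc e he i⟩) hF s hΛ
  refine (sum_le_sum key).trans (le_of_eq ?_)
  rw [sum_add_distrib, sum_const, card_product, card_product, card_product, nsmul_eq_mul, ← sum_filter,
    sum_const, nsmul_eq_mul]
  unfold quad
  push_cast
  ring

theorem stMean (hI : StInd) (hF : StFour) : StMean := by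
  intro ε hε
  obtain ⟨C, hC, h⟩ := hF ε hε
  refine ⟨C, hC, fun N B hN hB I hIN d A hA s Λ hΛ => ?_⟩
  have hC0 : 0 ≤ C := by linarith
  exact mean_W hI hN hB hIN A hA s hΛ (by positivity) fun u hu => h N hN I hIN Λ u hΛ hu

end Pool.Agent.K7.H49.ML
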