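import Pool.Agent.K7.H49.ML.Stm2
import Pool.Agent.K7.H49.ML.Mean
import Pool.Agent.Y959.Gen.Main

set_option autoImplicit false

/-!
# The mean of the moments of the Gram matrix over generic linear images
-/

open Finset MeasureTheory Matrix Module
open scoped ComplexOrder

namespace Pool.Agent.K7.H49.ML

open Pool.Agent.Y959.Gen (Hx Mx trace_eq trace_cont trace_nonneg quad_eq quad_le)

theorem rk_le {d m : ℕ} (a : Fin (m + 1) → Fin d → ℤ) : rk a ≤ m := by
  have h : finrank ℚ (Submodule.span ℚ (Set.range (dif a))) ≤ Fintype.card (Fin m) :=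
    finrank_range_le_card (dif a)
  rwa [Fintype.card_fin] at h

theorem Qc_ge (m N B : ℕ) (hN : 1 ≤ N) (hB : 1 ≤ B) (Λ : ℝ) (hΛ : 0 < Λ) : 1 ≤ Qc m N B Λ := by
  have hNr : (1 : ℝ) ≤ N := by exact_mod_cast hN
  have hBr : (1 : ℝ) ≤ B := by exact_mod_cast hB
  have hf : (1 : ℝ) ≤ (m + 1).factorial := by
    exact_mod_cast Nat.one_le_iff_ne_zero.2 (Nat.factorial_ne_zero _)
  have hm : (1 : ℝ) ≤ (m : ℝ) + 1 := by
    have : (0 : ℝ) ≤ m := by positivity
    linarith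
  have h1 : (1 : ℝ) ≤ (m + 1) * (m + 1).factorial * (B : ℝ) ^ (m + 2) * (N : ℝ) ^ 2 := by
    have e1 := one_le_pow₀ hBr (n := m + 2)
    have e2 := one_le_pow₀ hNr (n := 2)
    have e3 : (1 : ℝ) ≤ ((m : ℝ) + 1) * (m + 1).factorial := one_le_mul_of_one_le_of_one_le hm hf
    exact one_le_mul_of_one_le_of_one_le (one_le_mul_of_one_le_of_one_le e3 e1) e2
  have h2 := Real.log_nonneg h1
  unfold Qc
  have h3 : 0 ≤ 2 * ((m + 1).factorial * (B : ℝ) ^ (m + 1) * N) / Λ *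
    (1 + Real.log ((m + 1) * (m + 1).factorial * (B : ℝ) ^ (m + 2) * (N : ℝ) ^ 2)) := by
    positivity
  linarith

/-- the mean of the moments -/
theorem moment (hNS : StNSum) (hC : StCount) (N B : ℕ) (hN : 1 ≤ N) (hB : 1 ≤ B) (I : Finset ℕ)
    (hI : ∀ n ∈ I, 1 ≤ n ∧ n ≤ N) (hI0 : 1 ≤ I.card) (d : ℕ) (A : Finset (Fin d → ℤ))
    (hA : ∀ a ∈ A, ∀ b ∈ A, ∀ i, |a i - b i| ≤ B) (s : (Fin d → ℤ) → ℝ) (m : ℕ) (Λ : ℝ)
    (hΛ : 0 < Λ) :
    ∫ x in box d Λ, (((Hx s A I x) ^ (m + 1)).trace).re ≤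
      Λ ^ d * (Qc m N B Λ ^ m * (A.card * I.card * (A.card + I.card * (2 * B + 1) ^ m) ^ m)) := by
  classical
  set θ : ((Fin (m + 1) → I) × (Fin (m + 1) → A)) → Fin d → ℝ := fun q i =>
    ∑ j, (((q.2 j : A) : Fin d → ℤ) i : ℝ) *
          (Real.log ((q.1 (j + 1) : I) : ℕ) - Real.log ((q.1 j : I) : ℕ)) with hθ
  set c : ((Fin (m + 1) → I) × (Fin (m + 1) → A)) → ℝ := fun q =>
    ∑ j, s (q.2 j : A) *
          (Real.log ((q.1 (j + 1) : I) : ℕ) - Real.log ((q.1 j : I) : ℕ)) with hc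
  have hcont : ∀ q, Continuous (fun x : Fin d → ℝ =>
      Complex.exp ((((∑ i, θ q i * x i) + c q : ℝ) : ℂ) * Complex.I)) := by
    intro q
    fun_prop
  have hint : ∀ q, IntegrableOn (fun x : Fin d → ℝ =>
      Complex.exp ((((∑ i, θ q i * x i) + c q : ℝ) : ℂ) * Complex.I)) (box d Λ) volume :=
    fun q => (hcont q).continuousOn.integrableOn_compact (box_compact Λ)
  have h1 : ∫ x in box d Λ, (((Hx s A I x) ^ (m + 1)).trace).re =
      (∫ x in box d Λ, ∑ q,
        Complex.exp ((((∑ i, θ q i * x i) + c q : ℝ) : ℂ) * Complex.I)).re := by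
    have h2 : ∀ f : (Fin d → ℝ) → ℂ, IntegrableOn f (box d Λ) volume →
        ∫ x in box d Λ, (f x).re = (∫ x in box d Λ, f x).re := by
      intro f hf
      exact integral_re hf
    rw [← h2]
    · apply integral_congr_ae
      refine Filter.Eventually.of_forall fun x => ?_
      simp only [trace_eq, hθ, hc]
    · exact integrable_finsetSum _ (fun q _ => hint q)
  rw [h1]
  refine (Complex.re_le_norm _).trans ((int_sum univ Λ hΛ θ c).trans ?_)
  apply mul_le_mul_of_nonneg_left _ (by positivity)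
  have hQ := Qc_ge m N B hN hB Λ hΛ
  rw [Fintype.sum_prod_type_right]
  have h3 : ∀ a : Fin (m + 1) → A, ∑ n : Fin (m + 1) → I, ∏ i, g Λ (θ (n, a) i) ≤
      Qc m N B Λ ^ m * (I.card : ℝ) ^ (m + 1 - rk (fun j => (a j : Fin d → ℤ))) := by
    intro a
    have h4 := hNS N B hN hB I hI d m (fun j => (a j : Fin d → ℤ))
      (fun j j' i => hA _ (a j).2 _ (a j').2 i) Λ hΛ
    have h5 : Qc m N B Λ ^ rk (fun j => (a j : Fin d → ℤ)) ≤ Qc m N B Λ ^ m :=
      pow_le_pow_right₀ hQ (rk_le _)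
    calc _ ≤ (I.card : ℝ) ^ (m + 1 - rk (fun j => (a j : Fin d → ℤ))) *
          Qc m N B Λ ^ rk (fun j => (a j : Fin d → ℤ)) := h4
      _ ≤ (I.card : ℝ) ^ (m + 1 - rk (fun j => (a j : Fin d → ℤ))) * Qc m N B Λ ^ m := by
          gcongr
      _ = _ := by ring
  refine (sum_le_sum fun a _ => h3 a).trans ?_
  rw [← mul_sum]
  apply mul_le_mul_of_nonneg_left _ (by positivity)
  have h6 := hC d B A hA I.card hI0 m
  have h7 : ((∑ a : Fin (m + 1) → A, I.card ^ (m + 1 - rk (fun j => (a j : Fin d → ℤ))) : ℕ) : ℝ) ≤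
      ((A.card * I.card * (A.card + I.card * (2 * B + 1) ^ m) ^ m : ℕ) : ℝ) := by exact_mod_cast h6
  push_cast at h7
  exact h7

/-- Markov's inequality and the passage to the quadratic form -/
theorem main2 (hNS : StNSum) (hC : StCount) (N B : ℕ) (hN : 1 ≤ N) (hB : 1 ≤ B) (I : Finset ℕ)
    (hI : ∀ n ∈ I, 1 ≤ n ∧ n ≤ N) (hI0 : 1 ≤ I.card) (d : ℕ) (A : Finset (Fin d → ℤ))
    (hA0 : 1 ≤ A.card)
    (hA : ∀ a ∈ A, ∀ b ∈ A, ∀ i, |a i - b i| ≤ B) (s : (Fin d → ℤ) → ℝ) (m : ℕ) (Λ η : ℝ)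
    (hΛ : 0 < Λ) (hη : 0 < η) :
    ∃ E : Set (Fin d → ℝ), MeasurableSet E ∧ volume E ≤ ENNReal.ofReal (η * Λ ^ d) ∧
      ∀ x : Fin d → ℝ, (∀ i, x i ∈ Set.Icc Λ (2 * Λ)) → x ∉ E → ∀ b : ℕ → ℂ,
        ∑ a ∈ A, ‖∑ n ∈ I, b n *
          Complex.exp (Complex.I * (((∑ i, (a i : ℝ) * x i) + s a : ℝ) : ℂ) *
            (Real.log (n : ℝ) : ℂ))‖ ^ 2 ≤
          ((Qc m N B Λ ^ m * (A.card * I.card * (A.card + I.card * (2 * B + 1) ^ m) ^ m)) / η) ^
            (1 / ((m : ℝ) + 1)) * ∑ n ∈ I, ‖b n‖ ^ 2 := by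
  classical
  set Y : ℝ := Qc m N B Λ ^ m * (A.card * I.card * (A.card + I.card * (2 * B + 1) ^ m) ^ m) with hY
  have hQ := Qc_ge m N B hN hB Λ hΛ
  have hY0 : 0 < Y := by
    have hAr : (0 : ℝ) < A.card := by exact_mod_cast hA0
    have hIr : (0 : ℝ) < I.card := by exact_mod_cast hI0
    rw [hY]
    have : 0 < Qc m N B Λ := by linarith
    positivity
  set f : (Fin d → ℝ) → ℝ := fun x => (((Hx s A I x) ^ (m + 1)).trace).re with hf
  have hfc : Continuous f := Complex.continuous_re.comp (trace_cont s A I m)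
  have hbm : MeasurableSet (box d Λ) := MeasurableSet.univ_pi fun _ => measurableSet_Icc
  set E : Set (Fin d → ℝ) := box d Λ ∩ {x | Y / η ≤ f x} with hE
  have hEm : MeasurableSet E := hbm.inter (isClosed_le continuous_const hfc).measurableSet
  have hΛD : 0 < Λ ^ d := pow_pos hΛ _
  refine ⟨E, hEm, ?_, ?_⟩
  · have hmark := mul_meas_ge_le_integral_of_nonneg (μ := volume.restrict (box d Λ)) (f := f)
      (Filter.Eventually.of_forall fun x => trace_nonneg s A I x (m + 1))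
      (hfc.continuousOn.integrableOn_compact (box_compact Λ)) (Y / η)
    have hmom := moment hNS hC N B hN hB I hI hI0 d A hA s m Λ hΛ
    have h1 : Y / η * (volume.restrict (box d Λ)).real {x | Y / η ≤ f x} ≤
        Λ ^ d * Y := hmark.trans hmom
    have h2 : (volume.restrict (box d Λ)).real {x | Y / η ≤ f x} ≤ η * Λ ^ d := by
      have h3 : 0 < Y / η := div_pos hY0 hη
      rw [← mul_le_mul_iff_right₀ h3]
      refine h1.trans (le_of_eq ?_)
      field_simp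
    have h3 : volume E = (volume.restrict (box d Λ)) {x | Y / η ≤ f x} := by
      rw [Measure.restrict_apply (isClosed_le continuous_const hfc).measurableSet, hE,
        Set.inter_comm]
    rw [h3]
    have h4 : (volume.restrict (box d Λ)) {x | Y / η ≤ f x} ≠ ⊤ := by
      rw [← h3]
      exact ((measure_mono Set.inter_subset_left).trans_lt
        (box_compact Λ).measure_lt_top).ne
    rw [← ENNReal.ofReal_toReal h4]
    exact ENNReal.ofReal_le_ofReal h2
  · intro x hx hxE b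
    have hxbox : x ∈ box d Λ := fun i _ => hx i
    have hfx : f x ≤ Y / η := by
      by_contra hcon
      push Not at hcon
      exact hxE ⟨hxbox, hcon.le⟩
    have hH : (Hx s A I x).PosSemidef := Matrix.posSemidef_conjTranspose_mul_self _
    have hq := quad_le (Hx s A I x) hH (m + 1) (by omega) (Y / η) hfx (fun n : I => b n)
    rw [quad_eq] at hq
    have h1 : ∑ a : A, ‖∑ n : I, Mx s A I x a n * b n‖ ^ 2 =
        ∑ a ∈ A, ‖∑ n ∈ I, b n *
          Complex.exp (Complex.I * (((∑ i, (a i : ℝ) * x i) + s a : ℝ) : ℂ) *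
            (Real.log (n : ℝ) : ℂ))‖ ^ 2 := by
      rw [← sum_coe_sort A (fun a => ‖∑ n ∈ I, b n *
          Complex.exp (Complex.I * (((∑ i, (a i : ℝ) * x i) + s a : ℝ) : ℂ) *
            (Real.log (n : ℝ) : ℂ))‖ ^ 2)]
      apply sum_congr rfl
      intro a _
      congr 2
      rw [← sum_coe_sort I]
      apply sum_congr rfl
      intro n _
      unfold Mx Pool.Agent.Y959.Gen.pt
      rw [mul_comm]
      congr 2
      push_cast
      ring
    have h2 : ∑ n : I, ‖b n‖ ^ 2 = ∑ n ∈ I, ‖b n‖ ^ 2 := sum_coe_sort I (fun n => ‖b n‖ ^ 2)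
    rw [h1, h2, Nat.cast_add, Nat.cast_one] at hq
    exact hq

end Pool.Agent.K7.H49.ML
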