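import Pool.Agent.K7.H49.ML.Stm3
import Pool.Agent.K7.H49.ML.Moment

set_option autoImplicit false

/-!
# The mean of the moments of the Gram matrix over generic integral linear images
-/

open Finset Matrix Module
open scoped ComplexOrder

namespace Pool.Agent.K7.H49.ML

open Pool.Agent.Y959.Gen (Hx Mx trace_eq trace_nonneg quad_eq quad_le)

/-- the box of the integers -/
def ibox (d L : ℕ) : Finset (Fin d → ℕ) := Fintype.piFinset fun _ => Finset.Ioc L (2 * L)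

theorem ibox_card (d L : ℕ) : (ibox d L).card = L ^ d := by
  unfold ibox
  rw [Fintype.card_piFinset]
  simp only [Nat.card_Ioc, prod_const, card_univ, Fintype.card_fin]
  congr 1
  omega

theorem h_nonneg (L : ℕ) (θ : ℝ) : 0 ≤ h L θ := by unfold h; positivity

theorem sum_exp (d L : ℕ) (θ : Fin d → ℝ) (c : ℝ) (hL : 1 ≤ L) :
    ‖∑ x ∈ ibox d L, Complex.exp ((((∑ i, θ i * (x i : ℝ)) + c : ℝ) : ℂ) * Complex.I)‖ =
      (L : ℝ) ^ d * ∏ i, h L (θ i) := by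
  have hL0 : (L : ℝ) ≠ 0 := by
    have : (0 : ℝ) < L := by exact_mod_cast hL
    exact this.ne'
  have e1 : ∀ x : Fin d → ℕ, Complex.exp ((((∑ i, θ i * (x i : ℝ)) + c : ℝ) : ℂ) * Complex.I) =
      Complex.exp ((c : ℂ) * Complex.I) *
        ∏ i, Complex.exp (((θ i * (x i : ℝ) : ℝ) : ℂ) * Complex.I) := by
    intro x
    rw [← Complex.exp_sum, ← Complex.exp_add]
    congr 1
    push_cast
    rw [add_mul, sum_mul]
    ring
  simp only [e1]
  rw [← mul_sum, norm_mul, Complex.norm_exp_ofReal_mul_I, one_mul]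
  unfold ibox
  rw [← Finset.prod_univ_sum (fun _ : Fin d => Finset.Ioc L (2 * L))
    (fun i y => Complex.exp (((θ i * (y : ℝ) : ℝ) : ℂ) * Complex.I)), norm_prod]
  have e2 : ∀ i, ‖∑ y ∈ Finset.Ioc L (2 * L), Complex.exp (((θ i * (y : ℝ) : ℝ) : ℂ) * Complex.I)‖ =
      L * h L (θ i) := by
    intro i
    unfold h
    rw [mul_div_cancel₀ _ hL0]
  simp only [e2]
  rw [prod_mul_distrib, prod_const, card_univ, Fintype.card_fin]

theorem Qh_ge (m N B L : ℕ) (hN : 1 ≤ N) (hB : 1 ≤ B) (hL : 1 ≤ L) : 1 ≤ Qh m N B L := by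
  have hNr : (1 : ℝ) ≤ N := by exact_mod_cast hN
  have hBr : (1 : ℝ) ≤ B := by exact_mod_cast hB
  have hLr : (1 : ℝ) ≤ L := by exact_mod_cast hL
  have hf : (1 : ℝ) ≤ (m + 1).factorial := by
    exact_mod_cast Nat.one_le_iff_ne_zero.2 (Nat.factorial_ne_zero _)
  have hV : (1 : ℝ) ≤ Vc m N B := by
    have : 1 ≤ Vc m N B := by
      unfold Vc
      exact Nat.one_le_iff_ne_zero.2 (by positivity)
    exact_mod_cast this
  have e1 := one_le_pow₀ hBr (n := m + 1)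
  have h0 : (1 : ℝ) ≤ (m + 1).factorial * (B : ℝ) ^ (m + 1) * N :=
    one_le_mul_of_one_le_of_one_le (one_le_mul_of_one_le_of_one_le hf e1) hNr
  have h1 : (1 : ℝ) ≤ 13 * Vc m N B * ((m + 1).factorial * (B : ℝ) ^ (m + 1) * N) := by nlinarith
  have h2 := Real.log_nonneg h1
  have h3 : 0 ≤ Real.pi * ((m + 1).factorial * (B : ℝ) ^ (m + 1) * N) / L *
    (1 + Real.log (13 * Vc m N B * ((m + 1).factorial * (B : ℝ) ^ (m + 1) * N))) := by
    have := Real.pi_pos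
    positivity
  unfold Qh
  nlinarith

/-- the mean of the moments -/
theorem momentH (hNS : StNSumH) (hC : StCount) (N B : ℕ) (hN : 1 ≤ N) (hB : 1 ≤ B) (I : Finset ℕ)
    (hI : ∀ n ∈ I, 1 ≤ n ∧ n ≤ N) (hI0 : 1 ≤ I.card) (d : ℕ) (A : Finset (Fin d → ℤ))
    (hA : ∀ a ∈ A, ∀ b ∈ A, ∀ i, |a i - b i| ≤ B) (s : (Fin d → ℤ) → ℝ) (m L : ℕ) (hL : 1 ≤ L) :
    ∑ x ∈ ibox d L, (((Hx s A I (fun i => (x i : ℝ))) ^ (m + 1)).trace).re ≤
      (L : ℝ) ^ d * (Qh m N B L ^ m *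
        (A.card * I.card * (A.card + I.card * (2 * B + 1) ^ m) ^ m)) := by
  classical
  set θ : ((Fin (m + 1) → I) × (Fin (m + 1) → A)) → Fin d → ℝ := fun q i =>
    ∑ j, (((q.2 j : A) : Fin d → ℤ) i : ℝ) *
          (Real.log ((q.1 (j + 1) : I) : ℕ) - Real.log ((q.1 j : I) : ℕ)) with hθ
  set c : ((Fin (m + 1) → I) × (Fin (m + 1) → A)) → ℝ := fun q =>
    ∑ j, s (q.2 j : A) *
          (Real.log ((q.1 (j + 1) : I) : ℕ) - Real.log ((q.1 j : I) : ℕ)) with hc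
  have h1 : ∑ x ∈ ibox d L, (((Hx s A I (fun i => (x i : ℝ))) ^ (m + 1)).trace).re =
      (∑ q, ∑ x ∈ ibox d L,
        Complex.exp ((((∑ i, θ q i * (x i : ℝ)) + c q : ℝ) : ℂ) * Complex.I)).re := by
    rw [sum_comm, Complex.re_sum]
    apply sum_congr rfl
    intro x _
    rw [trace_eq]
  rw [h1]
  refine (Complex.re_le_norm _).trans ((norm_sum_le _ _).trans ?_)
  have h2 : ∀ q, ‖∑ x ∈ ibox d L,
        Complex.exp ((((∑ i, θ q i * (x i : ℝ)) + c q : ℝ) : ℂ) * Complex.I)‖ =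
      (L : ℝ) ^ d * ∏ i, h L (θ q i) := fun q => sum_exp d L (θ q) (c q) hL
  simp only [h2]
  rw [← mul_sum]
  apply mul_le_mul_of_nonneg_left _ (by positivity)
  have hQ := Qh_ge m N B L hN hB hL
  rw [Fintype.sum_prod_type_right]
  have h3 : ∀ a : Fin (m + 1) → A, ∑ n : Fin (m + 1) → I, ∏ i, h L (θ (n, a) i) ≤
      Qh m N B L ^ m * (I.card : ℝ) ^ (m + 1 - rk (fun j => (a j : Fin d → ℤ))) := by
    intro a
    have h4 := hNS N B hN hB I hI d m (fun j => (a j : Fin d → ℤ))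
      (fun j j' i => hA _ (a j).2 _ (a j').2 i) L hL
    have h5 : Qh m N B L ^ rk (fun j => (a j : Fin d → ℤ)) ≤ Qh m N B L ^ m :=
      pow_le_pow_right₀ hQ (rk_le _)
    calc _ ≤ (I.card : ℝ) ^ (m + 1 - rk (fun j => (a j : Fin d → ℤ))) *
          Qh m N B L ^ rk (fun j => (a j : Fin d → ℤ)) := h4
      _ ≤ (I.card : ℝ) ^ (m + 1 - rk (fun j => (a j : Fin d → ℤ))) * Qh m N B L ^ m := by
          gcongr
      _ = _ := by ring
  refine (sum_le_sum fun a _ => h3 a).trans ?_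
  rw [← mul_sum]
  apply mul_le_mul_of_nonneg_left _ (by positivity)
  have h6 := hC d B A hA I.card hI0 m
  have h7 : ((∑ a : Fin (m + 1) → A, I.card ^ (m + 1 - rk (fun j => (a j : Fin d → ℤ))) : ℕ) : ℝ) ≤
      ((A.card * I.card * (A.card + I.card * (2 * B + 1) ^ m) ^ m : ℕ) : ℝ) := by exact_mod_cast h6
  push_cast at h7
  exact h7

open Classical in
/-- Markov's inequality and the passage to the quadratic form -/
theorem main2H (hNS : StNSumH) (hC : StCount) (N B : ℕ) (hN : 1 ≤ N) (hB : 1 ≤ B) (I : Finset ℕ)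
    (hI : ∀ n ∈ I, 1 ≤ n ∧ n ≤ N) (hI0 : 1 ≤ I.card) (d : ℕ) (A : Finset (Fin d → ℤ))
    (hA0 : 1 ≤ A.card)
    (hA : ∀ a ∈ A, ∀ b ∈ A, ∀ i, |a i - b i| ≤ B) (s : (Fin d → ℤ) → ℝ) (m L : ℕ) (η : ℝ)
    (hL : 1 ≤ L) (hη : 0 < η) :
    ∃ E : Finset (Fin d → ℕ), (E.card : ℝ) ≤ η * (L : ℝ) ^ d ∧
      ∀ x : Fin d → ℕ, (∀ i, L < x i ∧ x i ≤ 2 * L) → x ∉ E → ∀ b : ℕ → ℂ,
        ∑ a ∈ A, ‖∑ n ∈ I, b n *
          Complex.exp (Complex.I * (((∑ i, (a i : ℝ) * (x i : ℝ)) + s a : ℝ) : ℂ) *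
            (Real.log (n : ℝ) : ℂ))‖ ^ 2 ≤
          ((Qh m N B L ^ m * (A.card * I.card * (A.card + I.card * (2 * B + 1) ^ m) ^ m)) / η) ^
            (1 / ((m : ℝ) + 1)) * ∑ n ∈ I, ‖b n‖ ^ 2 := by
  set Y : ℝ := Qh m N B L ^ m * (A.card * I.card * (A.card + I.card * (2 * B + 1) ^ m) ^ m) with hY
  have hQ := Qh_ge m N B L hN hB hL
  have hY0 : 0 < Y := by
    have hAr : (0 : ℝ) < A.card := by exact_mod_cast hA0
    have hIr : (0 : ℝ) < I.card := by exact_mod_cast hI0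
    rw [hY]
    have : 0 < Qh m N B L := by linarith
    positivity
  set f : (Fin d → ℕ) → ℝ := fun x => (((Hx s A I (fun i => (x i : ℝ))) ^ (m + 1)).trace).re with hf
  have hf0 : ∀ x, 0 ≤ f x := fun x => trace_nonneg s A I _ (m + 1)
  have hmom := momentH hNS hC N B hN hB I hI hI0 d A hA s m L hL
  have hYη : 0 < Y / η := div_pos hY0 hη
  refine ⟨(ibox d L).filter fun x => Y / η ≤ f x, ?_, ?_⟩
  · have h1 : (((ibox d L).filter fun x => Y / η ≤ f x).card : ℝ) * (Y / η) ≤ (L : ℝ) ^ d * Y := by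
      calc (((ibox d L).filter fun x => Y / η ≤ f x).card : ℝ) * (Y / η)
          = ∑ x ∈ (ibox d L).filter fun x => Y / η ≤ f x, (Y / η) := by
            rw [sum_const, nsmul_eq_mul]
        _ ≤ ∑ x ∈ (ibox d L).filter fun x => Y / η ≤ f x, f x :=
            sum_le_sum fun x hx => (mem_filter.1 hx).2
        _ ≤ ∑ x ∈ ibox d L, f x :=
            sum_le_sum_of_subset_of_nonneg (filter_subset _ _) fun x _ _ => hf0 x
        _ ≤ (L : ℝ) ^ d * Y := hmom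
    have h2 : (((ibox d L).filter fun x => Y / η ≤ f x).card : ℝ) * (Y / η) ≤
        (η * (L : ℝ) ^ d) * (Y / η) := by
      refine h1.trans (le_of_eq ?_)
      field_simp
    exact le_of_mul_le_mul_right h2 hYη
  · intro x hx hxE b
    have hxbox : x ∈ ibox d L := by
      unfold ibox
      rw [Fintype.mem_piFinset]
      exact fun i => mem_Ioc.2 (hx i)
    have hfx : f x ≤ Y / η := by
      by_contra hcon
      push Not at hcon
      exact hxE (mem_filter.2 ⟨hxbox, hcon.le⟩)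
    have hH : (Hx s A I (fun i => (x i : ℝ))).PosSemidef := Matrix.posSemidef_conjTranspose_mul_self _
    have hq := quad_le (Hx s A I (fun i => (x i : ℝ))) hH (m + 1) (by omega) (Y / η) hfx
      (fun n : I => b n)
    rw [quad_eq] at hq
    have h1 : ∑ a : A, ‖∑ n : I, Mx s A I (fun i => (x i : ℝ)) a n * b n‖ ^ 2 =
        ∑ a ∈ A, ‖∑ n ∈ I, b n *
          Complex.exp (Complex.I * (((∑ i, (a i : ℝ) * (x i : ℝ)) + s a : ℝ) : ℂ) *
            (Real.log (n : ℝ) : ℂ))‖ ^ 2 := by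
      rw [← sum_coe_sort A (fun a => ‖∑ n ∈ I, b n *
          Complex.exp (Complex.I * (((∑ i, (a i : ℝ) * (x i : ℝ)) + s a : ℝ) : ℂ) *
            (Real.log (n : ℝ) : ℂ))‖ ^ 2)]
      apply sum_congr rfl
      intro a _
      congr 2
      rw [← sum_coe_sort I]
      apply sum_congr rfl
      intro n _
      unfold Mx Pool.Agent.Y959.Gen.pt
      rw [mul_comm]
      congr 2
      push_cast
      ring
    have h2 : ∑ n : I, ‖b n‖ ^ 2 = ∑ n ∈ I, ‖b n‖ ^ 2 := sum_coe_sort I (fun n => ‖b n‖ ^ 2)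
    rw [h1, h2, Nat.cast_add, Nat.cast_one] at hq
    exact hq

end Pool.Agent.K7.H49.ML
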