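import Pool.Agent.K7.H49.ML.Moment

set_option autoImplicit false

/-!
# Generic linear images with arbitrary twists and boxes with sides of different lengths
-/

open Finset MeasureTheory Matrix Module
open scoped ComplexOrder

namespace Pool.Agent.K7.H49.ML

open Pool.Agent.Y959.Gen (quad_le trace_pow_eq)

variable {d : ℕ}

/-- the box with the sides `[Λ i, 2 Λ i]` -/
def vbox (Λ : Fin d → ℝ) : Set (Fin d → ℝ) := Set.univ.pi (fun i => Set.Icc (Λ i) (2 * Λ i))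

theorem vbox_compact (Λ : Fin d → ℝ) : IsCompact (vbox Λ) := isCompact_univ_pi fun _ => isCompact_Icc

theorem int_vbox (Λ : Fin d → ℝ) (hΛ : ∀ i, 0 < Λ i) (θ : Fin d → ℝ) :
    ‖∫ x in vbox Λ, Complex.exp (((∑ i, θ i * x i : ℝ) : ℂ) * Complex.I)‖ ≤
      (∏ i, Λ i) * ∏ i, g (Λ i) (θ i) := by
  have h : ∫ x in vbox Λ, Complex.exp (((∑ i, θ i * x i : ℝ) : ℂ) * Complex.I) =
      ∏ i, ∫ y in Set.Icc (Λ i) (2 * Λ i), Complex.exp ((θ i * y : ℝ) * Complex.I) := by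
    unfold vbox
    rw [volume_pi, Measure.restrict_pi_pi]
    have e : ∀ x : Fin d → ℝ, Complex.exp (((∑ i, θ i * x i : ℝ) : ℂ) * Complex.I) =
        ∏ i, Complex.exp ((θ i * x i : ℝ) * Complex.I) := by
      intro x
      rw [← Complex.exp_sum]
      congr 1
      push_cast
      rw [sum_mul]
    simp only [e]
    exact integral_fintype_prod_eq_prod (fun i (y : ℝ) => Complex.exp ((θ i * y : ℝ) * Complex.I))
  rw [h, norm_prod, ← prod_mul_distrib]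
  exact prod_le_prod (fun _ _ => norm_nonneg _) fun i _ => int_g (Λ i) (θ i) (hΛ i)

theorem g_anti_left {Λ Λ' θ : ℝ} (h : Λ ≤ Λ') : g Λ' θ ≤ g Λ θ := by
  unfold g
  apply inv_anti₀ (lt_of_lt_of_le zero_lt_one (le_max_left _ _))
  apply max_le_max le_rfl
  have := mul_le_mul_of_nonneg_right h (abs_nonneg θ)
  linarith

/-- The twisted matrix. -/
noncomputable def Mt (c : (Fin d → ℤ) → ℕ → ℂ) (A : Finset (Fin d → ℤ)) (I : Finset ℕ)
    (x : Fin d → ℝ) : Matrix A I ℂ :=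
  fun a n => c a n * Complex.exp ((((∑ i, ((a : Fin d → ℤ) i : ℝ) * x i) * Real.log (n : ℕ) : ℝ) : ℂ) *
    Complex.I)

/-- Its Gram matrix. -/
noncomputable def Ht (c : (Fin d → ℤ) → ℕ → ℂ) (A : Finset (Fin d → ℤ)) (I : Finset ℕ)
    (x : Fin d → ℝ) : Matrix I I ℂ := (Mt c A I x)ᴴ * Mt c A I x

theorem Ht_apply (c : (Fin d → ℤ) → ℕ → ℂ) (A : Finset (Fin d → ℤ)) (I : Finset ℕ)
    (x : Fin d → ℝ) (n n' : I) :
    Ht c A I x n n' = ∑ a : A, ((starRingEnd ℂ) (c a n) * c a n') *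
      Complex.exp ((((∑ i, ((a : Fin d → ℤ) i : ℝ) * x i) *
        (Real.log (n' : ℕ) - Real.log (n : ℕ)) : ℝ) : ℂ) * Complex.I) := by
  unfold Ht
  rw [Matrix.mul_apply]
  apply sum_congr rfl
  intro a _
  rw [Matrix.conjTranspose_apply]
  unfold Mt
  rw [Complex.star_def, map_mul, ← Complex.exp_conj]
  have e : (starRingEnd ℂ) (c a n) * Complex.exp ((starRingEnd ℂ)
      ((((∑ i, ((a : Fin d → ℤ) i : ℝ) * x i) * Real.log (n : ℕ) : ℝ) : ℂ) * Complex.I)) *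
      (c a n' * Complex.exp ((((∑ i, ((a : Fin d → ℤ) i : ℝ) * x i) * Real.log (n' : ℕ) : ℝ) : ℂ) *
        Complex.I)) = ((starRingEnd ℂ) (c a n) * c a n') * (Complex.exp ((starRingEnd ℂ)
      ((((∑ i, ((a : Fin d → ℤ) i : ℝ) * x i) * Real.log (n : ℕ) : ℝ) : ℂ) * Complex.I)) *
      Complex.exp ((((∑ i, ((a : Fin d → ℤ) i : ℝ) * x i) * Real.log (n' : ℕ) : ℝ) : ℂ) *
        Complex.I)) := by ring
  rw [e, ← Complex.exp_add]
  congr 2
  rw [map_mul, Complex.conj_ofReal, Complex.conj_I]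
  push_cast
  ring

/-- the product of the twists along a cycle -/
noncomputable def tw (c : (Fin d → ℤ) → ℕ → ℂ) {A : Finset (Fin d → ℤ)} {I : Finset ℕ} {m : ℕ}
    (p : Fin (m + 1) → I) (q : Fin (m + 1) → A) : ℂ :=
  ∏ j, ((starRingEnd ℂ) (c (q j) (p j)) * c (q j) (p (j + 1)))

theorem tw_le (c : (Fin d → ℤ) → ℕ → ℂ) (hc : ∀ a n, ‖c a n‖ ≤ 1) {A : Finset (Fin d → ℤ)}
    {I : Finset ℕ} {m : ℕ} (p : Fin (m + 1) → I) (q : Fin (m + 1) → A) : ‖tw c p q‖ ≤ 1 := by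
  unfold tw
  rw [norm_prod]
  apply prod_le_one (fun _ _ => norm_nonneg _)
  intro j _
  rw [norm_mul, Complex.norm_conj]
  exact mul_le_one₀ (hc _ _) (norm_nonneg _) (hc _ _)

theorem traceT_eq (c : (Fin d → ℤ) → ℕ → ℂ) (A : Finset (Fin d → ℤ)) (I : Finset ℕ)
    (x : Fin d → ℝ) (m : ℕ) :
    ((Ht c A I x) ^ (m + 1)).trace = ∑ q : (Fin (m + 1) → I) × (Fin (m + 1) → A),
      tw c q.1 q.2 * Complex.exp ((((∑ i, freq (fun j => (q.2 j : Fin d → ℤ))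
        (fun j => (q.1 j : ℕ)) i * x i : ℝ) : ℝ) : ℂ) * Complex.I) := by
  rw [Pool.Agent.H654R3.trace_pow_paths, Fintype.sum_prod_type]
  apply sum_congr rfl
  intro p _
  simp only [Ht_apply]
  rw [Finset.prod_univ_sum, Fintype.piFinset_univ]
  apply sum_congr rfl
  intro q _
  rw [prod_mul_distrib]
  unfold tw
  congr 1
  rw [← Complex.exp_sum, ← sum_mul, ← Complex.ofReal_sum]
  congr 3
  unfold freq
  have e : ∀ j, (∑ i, (((q j : A) : Fin d → ℤ) i : ℝ) * x i) *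
      (Real.log ((p (j + 1) : I) : ℕ) - Real.log ((p j : I) : ℕ)) =
      ∑ i, (((q j : A) : Fin d → ℤ) i : ℝ) *
        (Real.log ((p (j + 1) : I) : ℕ) - Real.log ((p j : I) : ℕ)) * x i := by
    intro j
    rw [sum_mul]
    apply sum_congr rfl
    intro i _
    ring
  simp only [e]
  rw [sum_comm]
  apply sum_congr rfl
  intro i _
  rw [sum_mul]

theorem traceT_cont (c : (Fin d → ℤ) → ℕ → ℂ) (A : Finset (Fin d → ℤ)) (I : Finset ℕ) (m : ℕ) :
    Continuous (fun x : Fin d → ℝ => ((Ht c A I x) ^ (m + 1)).trace) := by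
  simp only [traceT_eq]
  fun_prop

theorem traceT_nonneg (c : (Fin d → ℤ) → ℕ → ℂ) (A : Finset (Fin d → ℤ)) (I : Finset ℕ)
    (x : Fin d → ℝ) (k : ℕ) : 0 ≤ (((Ht c A I x) ^ k).trace).re := by
  have hH : (Ht c A I x).PosSemidef := Matrix.posSemidef_conjTranspose_mul_self _
  rw [trace_pow_eq hH.1]
  have : ∑ i, ((hH.1.eigenvalues i : ℂ)) ^ k = ((∑ i, hH.1.eigenvalues i ^ k : ℝ) : ℂ) := by
    push_cast
    rfl
  rw [this, Complex.ofReal_re]
  exact sum_nonneg fun i _ => pow_nonneg (hH.eigenvalues_nonneg i) k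

theorem quadT_eq (c : (Fin d → ℤ) → ℕ → ℂ) (A : Finset (Fin d → ℤ)) (I : Finset ℕ)
    (x : Fin d → ℝ) (b : I → ℂ) :
    (star b ⬝ᵥ (Ht c A I x *ᵥ b)).re = ∑ a : A, ‖∑ n : I, Mt c A I x a n * b n‖ ^ 2 := by
  unfold Ht
  rw [← Matrix.mulVec_mulVec, Matrix.dotProduct_mulVec, ← Matrix.star_mulVec, dotProduct]
  rw [Complex.re_sum]
  apply sum_congr rfl
  intro a _
  rw [Pi.star_apply, Complex.star_def, Complex.conj_mul']
  have : (Mt c A I x *ᵥ b) a = ∑ n : I, Mt c A I x a n * b n := rfl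
  rw [this]
  norm_cast

/-- the mean of the moments -/
theorem momentT (hNS : StNSum) (hC : StCount) (N B : ℕ) (hN : 1 ≤ N) (hB : 1 ≤ B) (I : Finset ℕ)
    (hI : ∀ n ∈ I, 1 ≤ n ∧ n ≤ N) (hI0 : 1 ≤ I.card) (A : Finset (Fin d → ℤ))
    (hA : ∀ a ∈ A, ∀ b ∈ A, ∀ i, |a i - b i| ≤ B) (c : (Fin d → ℤ) → ℕ → ℂ)
    (hc : ∀ a n, ‖c a n‖ ≤ 1) (m : ℕ) (Λ : Fin d → ℝ) (Λ₀ : ℝ) (hΛ₀ : 0 < Λ₀) (hΛ : ∀ i, Λ₀ ≤ Λ i) :
    ∫ x in vbox Λ, (((Ht c A I x) ^ (m + 1)).trace).re ≤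
      (∏ i, Λ i) * (Qc m N B Λ₀ ^ m *
        (A.card * I.card * (A.card + I.card * (2 * B + 1) ^ m) ^ m)) := by
  classical
  have hΛp : ∀ i, 0 < Λ i := fun i => hΛ₀.trans_le (hΛ i)
  have hcont : ∀ q : (Fin (m + 1) → I) × (Fin (m + 1) → A), Continuous (fun x : Fin d → ℝ =>
      tw c q.1 q.2 * Complex.exp ((((∑ i, freq (fun j => (q.2 j : Fin d → ℤ))
        (fun j => (q.1 j : ℕ)) i * x i : ℝ) : ℝ) : ℂ) * Complex.I)) := by
    intro q
    fun_prop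
  have hint : ∀ q : (Fin (m + 1) → I) × (Fin (m + 1) → A), IntegrableOn (fun x : Fin d → ℝ =>
      tw c q.1 q.2 * Complex.exp ((((∑ i, freq (fun j => (q.2 j : Fin d → ℤ))
        (fun j => (q.1 j : ℕ)) i * x i : ℝ) : ℝ) : ℂ) * Complex.I)) (vbox Λ) volume :=
    fun q => (hcont q).continuousOn.integrableOn_compact (vbox_compact Λ)
  have h1 : ∫ x in vbox Λ, (((Ht c A I x) ^ (m + 1)).trace).re =
      (∑ q : (Fin (m + 1) → I) × (Fin (m + 1) → A), ∫ x in vbox Λ,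
        tw c q.1 q.2 * Complex.exp ((((∑ i, freq (fun j => (q.2 j : Fin d → ℤ))
        (fun j => (q.1 j : ℕ)) i * x i : ℝ) : ℝ) : ℂ) * Complex.I)).re := by
    rw [← integral_finsetSum _ (fun q _ => hint q)]
    have h2 : ∀ f : (Fin d → ℝ) → ℂ, IntegrableOn f (vbox Λ) volume →
        ∫ x in vbox Λ, (f x).re = (∫ x in vbox Λ, f x).re := by
      intro f hf
      exact integral_re hf
    rw [← h2]
    · apply integral_congr_ae
      refine Filter.Eventually.of_forall fun x => ?_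
      simp only [traceT_eq]
    · exact integrable_finsetSum _ (fun q _ => hint q)
  rw [h1]
  refine (Complex.re_le_norm _).trans ((norm_sum_le _ _).trans ?_)
  have hq : ∀ q : (Fin (m + 1) → I) × (Fin (m + 1) → A), ‖∫ x in vbox Λ,
        tw c q.1 q.2 * Complex.exp ((((∑ i, freq (fun j => (q.2 j : Fin d → ℤ))
        (fun j => (q.1 j : ℕ)) i * x i : ℝ) : ℝ) : ℂ) * Complex.I)‖ ≤
      (∏ i, Λ i) * ∏ i, g Λ₀ (freq (fun j => (q.2 j : Fin d → ℤ)) (fun j => (q.1 j : ℕ)) i) := by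
    intro q
    rw [integral_const_mul, norm_mul]
    have h3 := int_vbox Λ hΛp (freq (fun j => (q.2 j : Fin d → ℤ)) (fun j => (q.1 j : ℕ)))
    have h4 : ∏ i, g (Λ i) (freq (fun j => (q.2 j : Fin d → ℤ)) (fun j => (q.1 j : ℕ)) i) ≤
        ∏ i, g Λ₀ (freq (fun j => (q.2 j : Fin d → ℤ)) (fun j => (q.1 j : ℕ)) i) :=
      prod_le_prod (fun _ _ => g_nonneg _ _) fun i _ => g_anti_left (hΛ i)
    have h5 : 0 ≤ ∏ i, Λ i := prod_nonneg fun i _ => (hΛp i).le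
    calc _ ≤ 1 * ((∏ i, Λ i) *
          ∏ i, g (Λ i) (freq (fun j => (q.2 j : Fin d → ℤ)) (fun j => (q.1 j : ℕ)) i)) :=
          mul_le_mul (tw_le c hc _ _) h3 (norm_nonneg _) zero_le_one
      _ ≤ _ := by
          rw [one_mul]
          exact mul_le_mul_of_nonneg_left h4 h5
  refine (sum_le_sum fun q _ => hq q).trans ?_
  rw [← mul_sum]
  apply mul_le_mul_of_nonneg_left _ (prod_nonneg fun i _ => (hΛp i).le)
  have hQ := Qc_ge m N B hN hB Λ₀ hΛ₀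
  rw [Fintype.sum_prod_type_right]
  have h3 : ∀ a : Fin (m + 1) → A, ∑ n : Fin (m + 1) → I,
      ∏ i, g Λ₀ (freq (fun j => (a j : Fin d → ℤ)) (fun j => (n j : ℕ)) i) ≤
      Qc m N B Λ₀ ^ m * (I.card : ℝ) ^ (m + 1 - rk (fun j => (a j : Fin d → ℤ))) := by
    intro a
    have h4 := hNS N B hN hB I hI d m (fun j => (a j : Fin d → ℤ))
      (fun j j' i => hA _ (a j).2 _ (a j').2 i) Λ₀ hΛ₀
    have h5 : Qc m N B Λ₀ ^ rk (fun j => (a j : Fin d → ℤ)) ≤ Qc m N B Λ₀ ^ m :=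
      pow_le_pow_right₀ hQ (rk_le _)
    calc _ ≤ (I.card : ℝ) ^ (m + 1 - rk (fun j => (a j : Fin d → ℤ))) *
          Qc m N B Λ₀ ^ rk (fun j => (a j : Fin d → ℤ)) := h4
      _ ≤ (I.card : ℝ) ^ (m + 1 - rk (fun j => (a j : Fin d → ℤ))) * Qc m N B Λ₀ ^ m := by
          gcongr
      _ = _ := by ring
  refine (sum_le_sum fun a _ => h3 a).trans ?_
  rw [← mul_sum]
  apply mul_le_mul_of_nonneg_left _ (by positivity)
  have h6 := hC d B A hA I.card hI0 m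
  have h7 : ((∑ a : Fin (m + 1) → A, I.card ^ (m + 1 - rk (fun j => (a j : Fin d → ℤ))) : ℕ) : ℝ) ≤
      ((A.card * I.card * (A.card + I.card * (2 * B + 1) ^ m) ^ m : ℕ) : ℝ) := by exact_mod_cast h6
  push_cast at h7
  exact h7

/-- Markov's inequality and the passage to the quadratic form -/
theorem main2T (hNS : StNSum) (hC : StCount) (N B : ℕ) (hN : 1 ≤ N) (hB : 1 ≤ B) (I : Finset ℕ)
    (hI : ∀ n ∈ I, 1 ≤ n ∧ n ≤ N) (hI0 : 1 ≤ I.card) (A : Finset (Fin d → ℤ))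
    (hA0 : 1 ≤ A.card)
    (hA : ∀ a ∈ A, ∀ b ∈ A, ∀ i, |a i - b i| ≤ B) (c : (Fin d → ℤ) → ℕ → ℂ)
    (hc : ∀ a n, ‖c a n‖ ≤ 1) (m : ℕ) (Λ : Fin d → ℝ) (Λ₀ η : ℝ) (hΛ₀ : 0 < Λ₀)
    (hΛ : ∀ i, Λ₀ ≤ Λ i) (hη : 0 < η) :
    ∃ E : Set (Fin d → ℝ), MeasurableSet E ∧ volume E ≤ ENNReal.ofReal (η * ∏ i, Λ i) ∧
      ∀ x : Fin d → ℝ, (∀ i, x i ∈ Set.Icc (Λ i) (2 * Λ i)) → x ∉ E → ∀ b : ℕ → ℂ,
        ∑ a ∈ A, ‖∑ n ∈ I, b n * (c a n *
          Complex.exp (Complex.I * ((∑ i, (a i : ℝ) * x i : ℝ) : ℂ) *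
            (Real.log (n : ℝ) : ℂ)))‖ ^ 2 ≤
          ((Qc m N B Λ₀ ^ m * (A.card * I.card * (A.card + I.card * (2 * B + 1) ^ m) ^ m)) / η) ^
            (1 / ((m : ℝ) + 1)) * ∑ n ∈ I, ‖b n‖ ^ 2 := by
  classical
  have hΛp : ∀ i, 0 < Λ i := fun i => hΛ₀.trans_le (hΛ i)
  set Y : ℝ := Qc m N B Λ₀ ^ m * (A.card * I.card * (A.card + I.card * (2 * B + 1) ^ m) ^ m) with hY
  have hQ := Qc_ge m N B hN hB Λ₀ hΛ₀
  have hY0 : 0 < Y := by
    have hAr : (0 : ℝ) < A.card := by exact_mod_cast hA0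
    have hIr : (0 : ℝ) < I.card := by exact_mod_cast hI0
    rw [hY]
    have : 0 < Qc m N B Λ₀ := by linarith
    positivity
  set f : (Fin d → ℝ) → ℝ := fun x => (((Ht c A I x) ^ (m + 1)).trace).re with hf
  have hfc : Continuous f := Complex.continuous_re.comp (traceT_cont c A I m)
  have hbm : MeasurableSet (vbox Λ) := MeasurableSet.univ_pi fun _ => measurableSet_Icc
  set E : Set (Fin d → ℝ) := vbox Λ ∩ {x | Y / η ≤ f x} with hE
  have hEm : MeasurableSet E := hbm.inter (isClosed_le continuous_const hfc).measurableSet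
  have hΛD : 0 < ∏ i, Λ i := prod_pos fun i _ => hΛp i
  refine ⟨E, hEm, ?_, ?_⟩
  · have hmark := mul_meas_ge_le_integral_of_nonneg (μ := volume.restrict (vbox Λ)) (f := f)
      (Filter.Eventually.of_forall fun x => traceT_nonneg c A I x (m + 1))
      (hfc.continuousOn.integrableOn_compact (vbox_compact Λ)) (Y / η)
    have hmom := momentT hNS hC N B hN hB I hI hI0 A hA c hc m Λ Λ₀ hΛ₀ hΛ
    have h1 : Y / η * (volume.restrict (vbox Λ)).real {x | Y / η ≤ f x} ≤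
        (∏ i, Λ i) * Y := hmark.trans hmom
    have h2 : (volume.restrict (vbox Λ)).real {x | Y / η ≤ f x} ≤ η * ∏ i, Λ i := by
      have h3 : 0 < Y / η := div_pos hY0 hη
      rw [← mul_le_mul_iff_right₀ h3]
      refine h1.trans (le_of_eq ?_)
      field_simp
    have h3 : volume E = (volume.restrict (vbox Λ)) {x | Y / η ≤ f x} := by
      rw [Measure.restrict_apply (isClosed_le continuous_const hfc).measurableSet, hE,
        Set.inter_comm]
    rw [h3]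
    have h4 : (volume.restrict (vbox Λ)) {x | Y / η ≤ f x} ≠ ⊤ := by
      rw [← h3]
      exact ((measure_mono Set.inter_subset_left).trans_lt
        (vbox_compact Λ).measure_lt_top).ne
    rw [← ENNReal.ofReal_toReal h4]
    exact ENNReal.ofReal_le_ofReal h2
  · intro x hx hxE b
    have hxbox : x ∈ vbox Λ := fun i _ => hx i
    have hfx : f x ≤ Y / η := by
      by_contra hcon
      push Not at hcon
      exact hxE ⟨hxbox, hcon.le⟩
    have hH : (Ht c A I x).PosSemidef := Matrix.posSemidef_conjTranspose_mul_self _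
    have hq := quad_le (Ht c A I x) hH (m + 1) (by omega) (Y / η) hfx (fun n : I => b n)
    rw [quadT_eq] at hq
    have h1 : ∑ a : A, ‖∑ n : I, Mt c A I x a n * b n‖ ^ 2 =
        ∑ a ∈ A, ‖∑ n ∈ I, b n * (c a n *
          Complex.exp (Complex.I * ((∑ i, (a i : ℝ) * x i : ℝ) : ℂ) *
            (Real.log (n : ℝ) : ℂ)))‖ ^ 2 := by
      rw [← sum_coe_sort A (fun a => ‖∑ n ∈ I, b n * (c a n *
          Complex.exp (Complex.I * ((∑ i, (a i : ℝ) * x i : ℝ) : ℂ) *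
            (Real.log (n : ℝ) : ℂ)))‖ ^ 2)]
      apply sum_congr rfl
      intro a _
      congr 2
      rw [← sum_coe_sort I]
      apply sum_congr rfl
      intro n _
      unfold Mt
      rw [mul_comm]
      congr 3
      push_cast
      ring
    have h2 : ∑ n : I, ‖b n‖ ^ 2 = ∑ n ∈ I, ‖b n‖ ^ 2 := sum_coe_sort I (fun n => ‖b n‖ ^ 2)
    rw [h1, h2, Nat.cast_add, Nat.cast_one] at hq
    exact hq

end Pool.Agent.K7.H49.ML
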